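import Pool.Agent.Run7.h843.P24.Val

/-!
# The character sum of the closed cycle
-/

set_option autoImplicit false

namespace Pool.Agent.Run7.h843.P24.Lk

open Finset
open Pool.Agent.Run7.h135.P24 (Fm cQ Fe Fp cc Cls0 S_DIAG)
open Pool.Agent.N969.P15 (un)

lemma jac_two {n : ℕ} (h : n % 8 = 3) : jacobiSym 2 n = -1 := by
  rw [jacobiSym.at_two (Nat.odd_iff.2 (by omega)), ZMod.χ₈_nat_eq_if_mod_eight]
  rw [if_neg (by omega), if_neg (by omega)]

/-- the doubling -/
theorem sum_dbl {n : ℕ} (h : n % 8 = 3) (g : ℤ → ℤ) (hg : ∀ x m : ℤ, g (x + m * n) = g x) :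
    ∑ u ∈ un n, jacobiSym u n * g (2 * u) = - ∑ u ∈ un n, jacobiSym u n * g u := by
  have hn : 0 < n := by omega
  have hc2 : Nat.Coprime 2 n := by
    rw [Nat.coprime_two_left]
    exact Nat.odd_iff.2 (by omega)
  have hch : Nat.Coprime ((n + 1) / 2) n := by
    have h1 : 2 * ((n + 1) / 2) = n + 1 := by omega
    have h2 : Nat.Coprime (2 * ((n + 1) / 2)) n := by
      rw [h1, Nat.coprime_self_add_left]
      exact Nat.coprime_one_left n
    exact Nat.Coprime.coprime_mul_left h2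
  have hmem : ∀ v : ℕ, v ∈ un n ↔ v < n ∧ Nat.Coprime v n := by
    intro v
    unfold un
    rw [mem_filter, mem_range]
  have hcm : ∀ a b : ℕ, Nat.Coprime a n → Nat.Coprime b n → Nat.Coprime ((a * b) % n) n := by
    intro a b ha hb
    rw [Nat.Coprime, ← Nat.gcd_rec, Nat.gcd_comm]
    exact Nat.Coprime.mul_left ha hb
  have key : ∑ u ∈ un n, jacobiSym u n * g u = ∑ u ∈ un n, -(jacobiSym u n * g (2 * u)) := by
    symm
    refine sum_nbij' (fun u => (2 * u) % n) (fun v => ((n + 1) / 2 * v) % n) ?_ ?_ ?_ ?_ ?_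
    · intro u hu
      rw [hmem] at hu ⊢
      exact ⟨Nat.mod_lt _ hn, hcm _ _ hc2 hu.2⟩
    · intro u hu
      rw [hmem] at hu ⊢
      exact ⟨Nat.mod_lt _ hn, hcm _ _ hch hu.2⟩
    · intro u hu
      rw [hmem] at hu
      show ((n + 1) / 2 * ((2 * u) % n)) % n = u
      have h1 : ((n + 1) / 2 * ((2 * u) % n)) ≡ u [MOD n] := by
        calc (n + 1) / 2 * ((2 * u) % n) ≡ (n + 1) / 2 * (2 * u) [MOD n] :=
              Nat.ModEq.mul_left _ (Nat.mod_modEq _ _)
          _ = u + n * u := by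
            have : (n + 1) / 2 * (2 * u) = (2 * ((n + 1) / 2)) * u := by ring
            rw [this, show 2 * ((n + 1) / 2) = n + 1 by omega]
            ring
          _ ≡ u [MOD n] := by
            unfold Nat.ModEq
            rw [Nat.add_mul_mod_self_left]
      unfold Nat.ModEq at h1
      rw [h1, Nat.mod_eq_of_lt hu.1]
    · intro u hu
      rw [hmem] at hu
      show (2 * (((n + 1) / 2 * u) % n)) % n = u
      have h1 : (2 * (((n + 1) / 2 * u) % n)) ≡ u [MOD n] := by
        calc 2 * (((n + 1) / 2 * u) % n) ≡ 2 * ((n + 1) / 2 * u) [MOD n] :=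
              Nat.ModEq.mul_left _ (Nat.mod_modEq _ _)
          _ = u + n * u := by
            have : 2 * ((n + 1) / 2 * u) = (2 * ((n + 1) / 2)) * u := by ring
            rw [this, show 2 * ((n + 1) / 2) = n + 1 by omega]
            ring
          _ ≡ u [MOD n] := by
            unfold Nat.ModEq
            rw [Nat.add_mul_mod_self_left]
      unfold Nat.ModEq at h1
      rw [h1, Nat.mod_eq_of_lt hu.1]
    · intro u _
      have h1 : (((2 * u) % n : ℕ) : ℤ) = 2 * u + (-((2 * u / n : ℕ) : ℤ)) * n := by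
        have := Nat.div_add_mod (2 * u) n
        have h2 : ((2 * u : ℕ) : ℤ) = ((n * (2 * u / n) + (2 * u) % n : ℕ) : ℤ) := by rw [this]
        push_cast at h2 ⊢
        linarith
      have h2 : jacobiSym (((2 * u) % n : ℕ) : ℤ) n = - jacobiSym u n := by
        rw [Int.natCast_mod, ← jacobiSym.mod_left]
        push_cast
        rw [jacobiSym.mul_left, jac_two h]
        ring
      show -(jacobiSym u n * g (2 * u)) = jacobiSym (((2 * u) % n : ℕ) : ℤ) n *
        g (((2 * u) % n : ℕ) : ℤ)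
      rw [h2, h1, hg]
      ring
  rw [key, sum_neg_distrib, neg_neg]

/-- **the character sum of the closed cycle** -/
theorem sum_Gp {n : ℕ} (h : n % 24 = 11) :
    ∑ u ∈ un n, jacobiSym u n * Gp u n = ∑ u ∈ un n, jacobiSym u n * Fp u n := by
  have hn6 : IsCoprime (n : ℤ) 6 := by
    rw [show (6 : ℤ) = ((6 : ℕ) : ℤ) by norm_num, Nat.isCoprime_iff_coprime]
    have h2 : Nat.Coprime 2 n := by
      rw [Nat.coprime_two_left]
      exact Nat.odd_iff.2 (by omega)
    have h3 : Nat.Coprime 3 n := by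
      rw [Nat.Prime.coprime_iff_not_dvd Nat.prime_three]
      omega
    exact (Nat.Coprime.mul_left h2 h3).symm
  have e4 := sum_dbl (n := n) (by omega) (fun x => Fe 4 x n) (fun x m => Fe_add L4 hn6 m)
  have e2 := sum_dbl (n := n) (by omega) (fun x => Fe 2 x n) (fun x m => Fe_add L2 hn6 m)
  have h1 : ∑ u ∈ un n, jacobiSym u n * Gp u n =
      4 * ∑ u ∈ un n, jacobiSym u n * Fe 8 u n - 2 * ∑ u ∈ un n, jacobiSym u n * Fe 4 u n -
      2 * ∑ u ∈ un n, jacobiSym u n * Fe 4 (2 * u) n + ∑ u ∈ un n, jacobiSym u n * Fe 2 (2 * u) n := by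
    rw [mul_sum, mul_sum, mul_sum, ← sum_sub_distrib, ← sum_sub_distrib, ← sum_add_distrib]
    refine sum_congr rfl fun u _ => ?_
    unfold Gp
    ring
  have h2 : ∑ u ∈ un n, jacobiSym u n * Fp u n =
      4 * ∑ u ∈ un n, jacobiSym u n * Fe 8 u n - ∑ u ∈ un n, jacobiSym u n * Fe 2 u n := by
    rw [mul_sum, ← sum_sub_distrib]
    refine sum_congr rfl fun u _ => ?_
    unfold Fp
    ring
  rw [h1, h2, e4, e2]
  ring

/-- the diagonal identity for the closed cycle -/
theorem diag_Gp (hD : S_DIAG) {n : ℕ} (hn : Cls0 n) :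
    9 * ∑ u ∈ un n, jacobiSym u n * Gp u n = -2 * cc n ^ 2 := by
  rw [sum_Gp hn.2]
  exact hD n hn

end Pool.Agent.Run7.h843.P24.Lk
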