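import Pool.Agent.Run7.h843.P24.Sym2

/-!
The sign of the constant: `κ₂₄ > 0`. On the line `Re z = 1/4` the form is `i` times a positive
function, and `κ₂₄` is twice the imaginary part of the integral from `1/4`.
-/

set_option autoImplicit false

open Filter Topology MeasureTheory Set

namespace Pool.Agent.Run7.h843.P24.MS

open Pool.Agent.W97.TW
open Pool.Agent.W97.MT (qq qq_ne norm_qq norm_qq_lt im_mul z_ne H_open QV iI iI_pos iI_eventually
  tendsto_qq hasDerivAt_qq tpi_ne line_im line_re inv_I im_aux frac_aux qq_conj Q_ne)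
open Pool.Agent.Run7.h741.MH
open Pool.Agent.Run7.h741.MF (hqe)

lemma real_of_conj {x : ℂ} (h : starRingEnd ℂ x = x) : x.im = 0 := by
  have := congrArg Complex.im h
  rw [Complex.conj_im] at this
  linarith

/-- the Euler function is positive on the real interval `(-1, 1)` -/
lemma Q_pos {x : ℝ} (hx : |x| < 1) : (Q (x : ℂ)).im = 0 ∧ 0 < (Q (x : ℂ)).re := by
  have hn : ∀ y : ℝ, |y| < 1 → ‖(y : ℂ)‖ < 1 := fun y hy => by
    rw [Complex.norm_real]; exact hy
  have him : ∀ y : ℝ, |y| < 1 → (Q (y : ℂ)).im = 0 := fun y hy =>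
    real_of_conj (by rw [← Q_conj (hn y hy), Complex.conj_ofReal])
  refine ⟨him x hx, ?_⟩
  by_contra hneg
  push Not at hneg
  have hsx : ∀ s ∈ Icc (0 : ℝ) 1, |s * x| < 1 := by
    intro s hs
    rw [abs_mul, abs_of_nonneg hs.1]
    have := hs.2
    have h2 := abs_nonneg x
    nlinarith
  have hc : ContinuousOn (fun t : ℝ => (Q ((t * x : ℝ) : ℂ)).re) (Icc 0 1) := by
    have h1 : ContinuousOn (fun t : ℝ => Q ((t * x : ℝ) : ℂ)) (Icc 0 1) := by
      refine Q_diff.continuousOn.comp (f := fun t : ℝ => ((t * x : ℝ) : ℂ)) (by fun_prop) ?_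
      intro s hs
      rw [mem_ball_zero_iff]
      exact hn _ (hsx s hs)
    exact Complex.continuous_re.comp_continuousOn h1
  have h0 : (Q (((0 : ℝ) * x : ℝ) : ℂ)).re = 1 := by
    rw [zero_mul, Complex.ofReal_zero]
    simp [Q_zero]
  obtain ⟨s, hs, h1⟩ := intermediate_value_Icc' (zero_le_one' ℝ) hc
    (show (0 : ℝ) ∈ Icc _ _ from ⟨by rw [one_mul]; exact hneg, by rw [h0]; exact zero_le_one⟩)
  exact Q_ne (hn _ (hsx s hs)) (Complex.ext h1 (him _ (hsx s hs)))

/-- the point `1/4 + it` -/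
noncomputable def zt (t : ℝ) : ℂ := (1 / 4 : ℂ) + (t : ℂ) * Complex.I

lemma zt_im (t : ℝ) : (zt t).im = t := by
  unfold zt
  rw [line_im]
  norm_num

lemma qq_zt (t : ℝ) : qq (zt t) = ((Real.exp (-2 * Real.pi * t) : ℝ) : ℂ) * Complex.I := by
  unfold qq
  have e : (2 * Real.pi * Complex.I * zt t : ℂ) =
      ((-2 * Real.pi * t : ℝ) : ℂ) + (Real.pi / 2) * Complex.I := by
    unfold zt
    push_cast
    linear_combination (2 * Real.pi * t : ℂ) * Complex.I_sq
  rw [e, Complex.exp_add, Complex.exp_pi_div_two_mul_I, Complex.ofReal_exp]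

/-- the form on the line `Re z = 1/4` -/
lemma ff_zt {t : ℝ} (ht : 0 < t) : 0 < (ff (zt t)).im := by
  have hpi := Real.pi_pos
  set r : ℝ := Real.exp (-2 * Real.pi * t) with hr
  have hr0 : 0 < r := Real.exp_pos _
  have hr1 : r < 1 := by
    rw [hr, Real.exp_lt_one_iff]
    nlinarith [mul_pos hpi ht]
  have hp : ∀ k : ℕ, k ≠ 0 → |r ^ k| < 1 ∧ |(-(r ^ k))| < 1 := by
    intro k hk
    rw [abs_neg, abs_of_pos (by positivity)]
    exact ⟨pow_lt_one₀ hr0.le hr1 hk, pow_lt_one₀ hr0.le hr1 hk⟩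
  obtain ⟨i2, p2⟩ := Q_pos (hp 2 (by norm_num)).2
  obtain ⟨i4, p4⟩ := Q_pos (hp 4 (by norm_num)).1
  obtain ⟨i6, p6⟩ := Q_pos (hp 6 (by norm_num)).2
  obtain ⟨i12, p12⟩ := Q_pos (hp 12 (by norm_num)).1
  have hre : ∀ {z : ℂ}, z.im = 0 → z = (z.re : ℂ) := fun {z} h =>
    Complex.ext (by simp) (by rw [h]; simp)
  have hI2 : Complex.I ^ 2 = -1 := Complex.I_sq
  have e2 : ((r : ℂ) * Complex.I) ^ 2 = ((-(r ^ 2) : ℝ) : ℂ) := by
    rw [mul_pow, hI2]
    push_cast
    ring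
  have e4 : ((r : ℂ) * Complex.I) ^ 4 = ((r ^ 4 : ℝ) : ℂ) := by
    rw [mul_pow, show Complex.I ^ 4 = (Complex.I ^ 2) ^ 2 by ring, hI2]
    push_cast
    ring
  have e6 : ((r : ℂ) * Complex.I) ^ 6 = ((-(r ^ 6) : ℝ) : ℂ) := by
    rw [mul_pow, show Complex.I ^ 6 = (Complex.I ^ 2) ^ 3 by ring, hI2]
    push_cast
    ring
  have e12 : ((r : ℂ) * Complex.I) ^ 12 = ((r ^ 12 : ℝ) : ℂ) := by
    rw [mul_pow, show Complex.I ^ 12 = (Complex.I ^ 2) ^ 6 by ring, hI2]
    push_cast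
    ring
  have h1 : ff (zt t) = ((r * ((Q ((-(r ^ 2) : ℝ) : ℂ)).re * (Q ((r ^ 4 : ℝ) : ℂ)).re *
      (Q ((-(r ^ 6) : ℝ) : ℂ)).re * (Q ((r ^ 12 : ℝ) : ℂ)).re) : ℝ) : ℂ) * Complex.I := by
    rw [ff_q, qq_zt, ← hr]
    unfold phi
    rw [e2, e4, e6, e12, hre i2, hre i4, hre i6, hre i12]
    simp only [Complex.ofReal_re]
    push_cast
    ring
  rw [h1, Complex.mul_I_im, Complex.ofReal_re]
  positivity

lemma F_zt_deriv {t : ℝ} (ht : 0 < t) :
    HasDerivAt (fun t : ℝ => (F (zt t)).im) (-(2 * Real.pi) * (ff (zt t)).im) t := by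
  have h1 : HasDerivAt (fun t : ℝ => F (zt t)) (-(2 * Real.pi) * ff (zt t)) t :=
    F_line_deriv (1 / 4 : ℂ) (t := t) (by
      have : (1 / 4 : ℂ).im = 0 := by norm_num
      rw [this, zero_add]
      exact ht)
  have h2 := Complex.imCLM.hasFDerivAt.comp_hasDerivAt t h1
  refine h2.congr_deriv ?_
  have e : (-(2 * (Real.pi : ℂ)) * ff (zt t)) = ((-(2 * Real.pi) : ℝ) : ℂ) * ff (zt t) := by
    push_cast
    ring
  rw [e]
  simp only [Complex.imCLM_apply, Complex.im_ofReal_mul]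

lemma F_zt_anti : StrictAntiOn (fun t : ℝ => (F (zt t)).im) (Ioi 0) := by
  refine strictAntiOn_of_deriv_neg (convex_Ioi 0)
    (fun t ht => (F_zt_deriv ht).continuousAt.continuousWithinAt) ?_
  intro t ht
  rw [interior_Ioi] at ht
  have ht0 : 0 < t := ht
  rw [(F_zt_deriv ht0).deriv]
  have h1 := ff_zt ht0
  have h2 := Real.pi_pos
  nlinarith [mul_pos h2 h1]

lemma F_zt_pos {t : ℝ} (ht : 0 < t) : 0 < (F (zt t)).im := by
  have h1 : Tendsto (fun t : ℝ => (F (zt t)).im) atTop (𝓝 0) := by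
    have := (Complex.continuous_im.tendsto 0).comp (F_line_tendsto (1 / 4 : ℂ))
    exact this
  have h2 : (F (zt (t + 1))).im < (F (zt t)).im :=
    F_zt_anti ht (show 0 < t + 1 by linarith) (by linarith)
  refine lt_of_le_of_lt ?_ h2
  refine le_of_tendsto h1 ?_
  filter_upwards [eventually_ge_atTop (t + 1)] with s hs
  exact F_zt_anti.antitoneOn (show (0 : ℝ) < t + 1 by linarith) (show 0 < s by linarith) hs

/-! ### the cusp `1/4` -/

/-- the map to the cusp `1/4` -/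
noncomputable def m4 (z : ℂ) : ℂ := (3 * z + 2) / (12 * z + 9)

lemma exists_C4 : ∃ C : ℂ, Tendsto (fun z => F (m4 z)) iI (𝓝 C) := by
  obtain ⟨C, hC⟩ := exists_limit (mapv.comp map3)
  refine ⟨C + per (-19) 1 (-4) 5, (hC.add_const _).congr' ?_⟩
  filter_upwards [iI_pos] with z hz
  rw [← per_spec (a := -19) (b := 1) (c := -4) (d := 5) (by norm_num)
    ((mapv.comp map3).pos z hz), (a4 hz).1]
  rfl

lemma tendsto_line (x : ℝ) : Tendsto (fun s : ℝ => (x : ℂ) + (s : ℂ) * Complex.I) atTop iI := by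
  unfold iI
  rw [tendsto_comap_iff]
  have : Complex.im ∘ (fun s : ℝ => (x : ℂ) + (s : ℂ) * Complex.I) = fun s => s := by
    ext s
    simp
  rw [this]
  exact tendsto_id

/-- the vertical line -/
lemma m4_line {s : ℝ} (hs : 0 < s) :
    m4 (((-3 / 4 : ℝ) : ℂ) + (s : ℂ) * Complex.I) = zt (1 / (48 * s)) := by
  have hs' : (s : ℂ) ≠ 0 := by exact_mod_cast hs.ne'
  unfold m4 zt
  have h0 : (12 * (((-3 / 4 : ℝ) : ℂ) + (s : ℂ) * Complex.I) + 9 : ℂ) = 12 * s * Complex.I := by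
    push_cast
    ring
  rw [h0, div_eq_iff (mul_ne_zero (mul_ne_zero (by norm_num) hs') Complex.I_ne_zero)]
  push_cast
  field_simp
  linear_combination (-48 : ℂ) * Complex.I_sq

/-- the geodesic from `1/6` to `1/4` -/
lemma m4_geo {s : ℝ} (hs : 0 < s) :
    (F (m4 (((-1 / 2 : ℝ) : ℂ) + (s : ℂ) * Complex.I))).im = kappa / 2 := by
  set z : ℂ := ((-1 / 2 : ℝ) : ℂ) + (s : ℂ) * Complex.I with hz
  have hzp : 0 < z.im := by rw [hz]; simpa using hs
  set v : ℂ := m4 z with hv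
  have hvp : 0 < v.im := by
    have h1 := (G_gamma (a := -19) (b := 1) (c := -4) (d := 5) (by norm_num)
      ((mapv.comp map3).pos z hzp)).1
    rw [(a4 hzp).1] at h1
    exact h1
  have h1 := per_spec (a := 5) (b := 1) (c := 1) (d := 5) (by norm_num) (neg_conj_im hvp)
  have hd : (3 + 12 * s * Complex.I : ℂ) ≠ 0 := by
    intro h
    have := congrArg Complex.re h
    simp at this
  have hd' : (3 - 12 * s * Complex.I : ℂ) ≠ 0 := by
    intro h
    have := congrArg Complex.re h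
    simp at this
  have ev : v = (1 / 2 + 3 * s * Complex.I) / (3 + 12 * s * Complex.I) := by
    rw [hv, hz]
    unfold m4
    congr 1 <;> push_cast <;> ring
  have ecv : starRingEnd ℂ v = (1 / 2 - 3 * s * Complex.I) / (3 - 12 * s * Complex.I) := by
    have c3 : (starRingEnd ℂ) (3 : ℂ) = 3 := Complex.conj_ofNat 3
    have c12 : (starRingEnd ℂ) (12 : ℂ) = 12 := Complex.conj_ofNat 12
    have c2 : (starRingEnd ℂ) (2 : ℂ) = 2 := Complex.conj_ofNat 2
    rw [ev, map_div₀, map_add, map_add, map_mul, map_mul, map_mul, map_mul, map_div₀, map_one,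
      Complex.conj_I, Complex.conj_ofReal, c3, c12, c2]
    congr 1 <;> ring
  have e3 : (((5 : ℤ) : ℂ) * (-(starRingEnd ℂ v)) + ((1 : ℤ) : ℂ)) /
      (24 * ((1 : ℤ) : ℂ) * (-(starRingEnd ℂ v)) + ((5 : ℤ) : ℂ)) = v := by
    rw [ecv, ev, ← neg_div, mob hd']
    have hd'' : (-(3 + 12 * s * Complex.I) : ℂ) ≠ 0 := neg_ne_zero.2 hd
    have g1 : (24 * ((1 : ℤ) : ℂ) * -(1 / 2 - 3 * s * Complex.I) +
        ((5 : ℤ) : ℂ) * (3 - 12 * s * Complex.I) : ℂ) = 3 + 12 * s * Complex.I := by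
      push_cast
      ring
    have g2 : (((5 : ℤ) : ℂ) * -(1 / 2 - 3 * s * Complex.I) +
        ((1 : ℤ) : ℂ) * (3 - 12 * s * Complex.I) : ℂ) = 1 / 2 + 3 * s * Complex.I := by
      push_cast
      ring
    rw [g1, g2]
  rw [e3, F_conj hvp] at h1
  have h2 := congrArg Complex.im h1
  rw [Complex.add_im, Complex.conj_im] at h2
  unfold kappa hI
  linarith

/-- **the constant is positive** -/
theorem kappa_pos : 0 < kappa := by
  obtain ⟨C, hC⟩ := exists_C4
  have h1 := (Complex.continuous_im.tendsto C).comp (hC.comp (tendsto_line (-1 / 2)))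
  have h2 : C.im = kappa / 2 := by
    refine tendsto_nhds_unique h1 (tendsto_const_nhds.congr' ?_)
    filter_upwards [eventually_gt_atTop 0] with s hs
    exact (m4_geo hs).symm
  have h3 := (Complex.continuous_im.tendsto C).comp (hC.comp (tendsto_line (-3 / 4)))
  have h4 : (F (zt 1)).im ≤ C.im := by
    refine ge_of_tendsto h3 ?_
    filter_upwards [eventually_ge_atTop 1] with s hs
    have hs0 : (0 : ℝ) < s := by linarith
    show _ ≤ (F (m4 (((-3 / 4 : ℝ) : ℂ) + (s : ℂ) * Complex.I))).im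
    rw [m4_line hs0]
    refine F_zt_anti.antitoneOn (show (0 : ℝ) < 1 / (48 * s) by positivity)
      (show (0 : ℝ) < 1 by norm_num) ?_
    rw [div_le_one (by positivity)]
    linarith
  have h5 := F_zt_pos (t := 1) one_pos
  rw [h2] at h4
  linarith

end Pool.Agent.Run7.h843.P24.MS
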