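import Pool.Agent.Run7.h843.P24.Ev

/-!
# The numbers `Fe e x M` as finite sums
-/

set_option autoImplicit false

namespace Pool.Agent.Run7.h843.P24.Lk

open Finset
open Pool.Agent.Run7.h135.P24 (Fm cQ Fe Fp)

/-- the middle coefficient -/
def Bt (e x M : ℤ) (j t : ℕ) : ℤ := (-(2 * (3 * e * (j + 1)) * x)) / M + t

/-- the finite sum -/
def cnt (e x M : ℤ) (J : ℕ) : ℤ := ∑ j ∈ range J, ∑ t ∈ range 2,
  if (Bt e x M j t ^ 2 - 1) % (4 * (3 * e * (j + 1))) = 0 ∧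
    ((Bt e x M j t % (2 * e) = 1 ∧ Bt e x M j t % 3 = 2) ∨
      (Bt e x M j t % (2 * e) = 2 * e - 1 ∧ Bt e x M j t % 3 = 1)) ∧
    (2 * (3 * e * (j + 1)) * x + Bt e x M j t * M) ^ 2 < M ^ 2 then
    (if Bt e x M j t % 3 = 2 then 1 else -1) else 0

/-- the form -/
def Qt (e x M : ℤ) (s : ℕ × ℕ) : ℤ × ℤ × ℤ :=
  (3 * e * (s.1 + 1), Bt e x M s.1 s.2, (Bt e x M s.1 s.2 ^ 2 - 1) / (4 * (3 * e * (s.1 + 1))))

theorem Fe_cnt {e : ℤ} (he : Le e) {x M : ℤ} (hM : 0 < M) {J : ℕ} (hJ : M ^ 2 < 12 * e * (J + 1)) :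
    Fe e x M = cnt e x M J := by
  have he0 := he.pos
  have hA : ∀ j : ℕ, 0 < 3 * e * ((j : ℤ) + 1) := fun j => by positivity
  have hinj : Set.InjOn (Qt e x M) (range J ×ˢ range 2 : Finset (ℕ × ℕ)) := by
    rintro ⟨j, t⟩ - ⟨j', t'⟩ - h
    unfold Qt at h
    rw [Prod.mk.injEq, Prod.mk.injEq] at h
    obtain ⟨h1, h2, -⟩ := h
    simp only at h1 h2
    have h3 : (j : ℤ) = j' := by
      have := mul_left_cancel₀ (by positivity : (3 * e : ℤ) ≠ 0) h1
      linarith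
    have h4 : j = j' := by exact_mod_cast h3
    subst h4
    unfold Bt at h2
    have h5 : (t : ℤ) = t' := by linarith
    have h6 : t = t' := by exact_mod_cast h5
    rw [h6]
  have hsup : Function.support (fs e x M) ⊆ ((range J ×ˢ range 2).image (Qt e x M) : Finset _) := by
    intro q hq
    rw [Function.mem_support] at hq
    unfold fs at hq
    have hF : Fm e q ∧ 0 < q.1 ∧ ev q x M < 0 := by
      by_contra hF
      rw [if_neg hF] at hq
      exact hq rfl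
    obtain ⟨hF, hq0, hev⟩ := hF
    obtain ⟨k, hk⟩ := hF.2.1
    have h4 := four_ev hF x M
    have hD : q.2.1 ^ 2 - 4 * q.1 * q.2.2 = 1 := hF.1
    have hk0 : 0 < k := by
      rw [hk] at hq0
      exact (mul_pos_iff_of_pos_left (by positivity : (0 : ℤ) < 3 * e)).1 hq0
    have h5 : q.1 ≤ q.1 * (-ev q x M) := by nlinarith
    have h6 : 4 * q.1 ≤ M ^ 2 := by nlinarith [sq_nonneg (2 * q.1 * x + q.2.1 * M)]
    have h7 : k < J + 1 := by
      by_contra h
      push Not at h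
      have h8 : 12 * e * ((J : ℤ) + 1) ≤ 12 * e * k :=
        mul_le_mul_of_nonneg_left h (by positivity)
      rw [hk] at h6
      linarith
    obtain ⟨j, hj⟩ : ∃ j : ℕ, k = (j : ℤ) + 1 := ⟨(k - 1).toNat, by omega⟩
    have hjJ : j < J := by
      have : (j : ℤ) < J := by linarith
      exact_mod_cast this
    have hq1 : q.1 = 3 * e * ((j : ℤ) + 1) := by rw [hk, hj]
    -- the middle coefficient
    have h9 : (2 * q.1 * x + q.2.1 * M) ^ 2 < M ^ 2 := by nlinarith [mul_pos hq0 (neg_pos.2 hev)]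
    have h10 := abs_lt_of_sq_lt_sq h9 hM.le
    have h11 := abs_lt.1 h10
    have h12 := Int.mul_ediv_add_emod (-(2 * (3 * e * ((j : ℤ) + 1)) * x)) M
    have h13 := Int.emod_nonneg (-(2 * (3 * e * ((j : ℤ) + 1)) * x)) hM.ne'
    have h14 := Int.emod_lt_of_pos (-(2 * (3 * e * ((j : ℤ) + 1)) * x)) hM
    obtain ⟨f, hf⟩ : ∃ f, f = (-(2 * (3 * e * ((j : ℤ) + 1)) * x)) / M := ⟨_, rfl⟩
    rw [← hf] at h12
    rw [hq1] at h11
    have h15 : f ≤ q.2.1 := by
      by_contra h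
      push Not at h
      have : M * q.2.1 ≤ M * (f - 1) := mul_le_mul_of_nonneg_left (by linarith) hM.le
      nlinarith
    have h16 : q.2.1 < f + 2 := by
      by_contra h
      push Not at h
      have : M * (f + 2) ≤ M * q.2.1 := mul_le_mul_of_nonneg_left h hM.le
      nlinarith
    obtain ⟨t, ht⟩ : ∃ t : ℕ, q.2.1 = f + t := ⟨(q.2.1 - f).toNat, by omega⟩
    have ht2 : t < 2 := by
      have : (t : ℤ) < 2 := by linarith
      exact_mod_cast this
    rw [Finset.coe_image]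
    refine ⟨(j, t), ?_, ?_⟩
    · rw [Finset.mem_coe, mem_product, mem_range, mem_range]
      exact ⟨hjJ, ht2⟩
    · have hB : Bt e x M j t = q.2.1 := by
        unfold Bt
        rw [ht, hf]
      unfold Qt
      ext
      · simp only
        rw [hq1]
      · simp only
        exact hB
      · simp only
        rw [hB, ← hq1, ← hD, show q.2.1 ^ 2 - (q.2.1 ^ 2 - 4 * q.1 * q.2.2) = 4 * q.1 * q.2.2 by ring]
        exact Int.mul_ediv_cancel_left _ (by positivity)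
  rw [Fe_eq, finsum_eq_sum_of_support_subset _ hsup, Finset.sum_image hinj, Finset.sum_product]
  unfold cnt
  refine sum_congr rfl fun j _ => sum_congr rfl fun t _ => ?_
  unfold fs
  have hAj := hA j
  obtain ⟨B, hB⟩ : ∃ B, B = Bt e x M j t := ⟨_, rfl⟩
  obtain ⟨A, hAA⟩ : ∃ A, A = 3 * e * ((j : ℤ) + 1) := ⟨_, rfl⟩
  have hQ : Qt e x M (j, t) = (A, B, (B ^ 2 - 1) / (4 * A)) := by
    unfold Qt
    rw [hB, hAA]
  rw [hQ, ← hB, ← hAA]
  rw [← hAA] at hAj
  have key : (Fm e (A, B, (B ^ 2 - 1) / (4 * A)) ∧ 0 < A ∧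
      ev (A, B, (B ^ 2 - 1) / (4 * A)) x M < 0) ↔
      ((B ^ 2 - 1) % (4 * A) = 0 ∧ ((B % (2 * e) = 1 ∧ B % 3 = 2) ∨
      (B % (2 * e) = 2 * e - 1 ∧ B % 3 = 1)) ∧ (2 * A * x + B * M) ^ 2 < M ^ 2) := by
    constructor
    · rintro ⟨hF, -, hev⟩
      have h4 := four_ev hF x M
      have hD := hF.1
      simp only at hD h4
      refine ⟨?_, hF.2.2, ?_⟩
      · have : B ^ 2 - 1 = 4 * A * ((B ^ 2 - 1) / (4 * A)) := by linarith
        exact Int.emod_eq_zero_of_dvd ⟨_, this⟩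
      · nlinarith [mul_pos hAj (neg_pos.2 hev)]
    · rintro ⟨h1, h2, h3⟩
      have h5 : 4 * A * ((B ^ 2 - 1) / (4 * A)) = B ^ 2 - 1 :=
        Int.mul_ediv_cancel' (Int.dvd_of_emod_eq_zero h1)
      have hF : Fm e (A, B, (B ^ 2 - 1) / (4 * A)) := by
        refine ⟨?_, ⟨j + 1, hAA⟩, h2⟩
        simp only
        linarith
      refine ⟨hF, hAj, ?_⟩
      have h4 := four_ev hF x M
      simp only at h4
      by_contra h
      push Not at h
      have := mul_nonneg hAj.le h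
      linarith
  by_cases h : (B ^ 2 - 1) % (4 * A) = 0 ∧ ((B % (2 * e) = 1 ∧ B % 3 = 2) ∨
      (B % (2 * e) = 2 * e - 1 ∧ B % 3 = 1)) ∧ (2 * A * x + B * M) ^ 2 < M ^ 2
  · rw [if_pos h, if_pos (key.2 h)]
    rfl
  · rw [if_neg h, if_neg (fun h' => h (key.1 h'))]

end Pool.Agent.Run7.h843.P24.Lk
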