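import Mathlib
import Pool.Agent.Run7.h135.P24.Defs

/-!
# Level `24` (after `Run7/h741/P15/Ev.lean` by helper741): the crossing numbers `Fe` of the vertical
lines with the geodesics of the forms of discriminant `1` and level `3 e`, `e = 2, 4, 8`, as
homomorphisms on `Γ₀(3 e)`
-/

set_option autoImplicit false

namespace Pool.Agent.Run7.h843.P24.Lk

open Finset
open Pool.Agent.Run7.h135.P24 (Fm cQ Fe Fp)

/-- the levels -/
def Le (e : ℤ) : Prop := e = 2 ∨ e = 4 ∨ e = 8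

lemma Le.pos {e : ℤ} (he : Le e) : 0 < e := by rcases he with rfl | rfl | rfl <;> norm_num

/-- the value of a form -/
def ev (q : ℤ × ℤ × ℤ) (x M : ℤ) : ℤ := q.1 * x ^ 2 + q.2.1 * x * M + q.2.2 * M ^ 2

/-- the points which are not the end of a geodesic of our forms -/
def Ok (e x M : ℤ) : Prop := ∀ q, Fm e q → ev q x M ≠ 0

lemma Fm_mid {e : ℤ} (he : Le e) {q : ℤ × ℤ × ℤ} (h : Fm e q) :
    ¬ 6 * e ∣ q.2.1 - 1 ∧ ¬ 6 * e ∣ q.2.1 + 1 := by
  obtain ⟨-, -, h3⟩ := h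
  rcases he with rfl | rfl | rfl <;> omega

lemma Fm_sq {e : ℤ} (he : Le e) {q : ℤ × ℤ × ℤ} (h : Fm e q) : q.2.1 ≠ 1 ∧ q.2.1 ≠ -1 := by
  obtain ⟨h1, h2⟩ := Fm_mid he h
  constructor
  · intro h0
    rw [h0] at h1
    exact h1 ⟨0, by ring⟩
  · intro h0
    rw [h0] at h2
    exact h2 ⟨0, by ring⟩

lemma Fm_a {e : ℤ} (he : Le e) {q : ℤ × ℤ × ℤ} (h : Fm e q) : q.1 ≠ 0 := by
  intro h0
  obtain ⟨h2, h3⟩ := Fm_sq he h
  obtain ⟨h1, -, -⟩ := h
  rw [h0] at h1
  have h4 : (q.2.1 - 1) * (q.2.1 + 1) = 0 := by linarith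
  rcases mul_eq_zero.1 h4 with h | h
  · exact h2 (by linarith)
  · exact h3 (by linarith)

lemma Fm_c {e : ℤ} (he : Le e) {q : ℤ × ℤ × ℤ} (h : Fm e q) : q.2.2 ≠ 0 := by
  intro h0
  obtain ⟨h2, h3⟩ := Fm_sq he h
  obtain ⟨h1, -, -⟩ := h
  rw [h0] at h1
  have h4 : (q.2.1 - 1) * (q.2.1 + 1) = 0 := by linarith
  rcases mul_eq_zero.1 h4 with h | h
  · exact h2 (by linarith)
  · exact h3 (by linarith)

lemma ev_inf (q : ℤ × ℤ × ℤ) : ev q 1 0 = q.1 := by unfold ev; ring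

lemma Ok_inf {e : ℤ} (he : Le e) : Ok e 1 0 := fun q hq => by rw [ev_inf]; exact Fm_a he hq

/-- a root of a form -/
lemma root {e : ℤ} {q : ℤ × ℤ × ℤ} (h : Fm e q) {x M : ℤ} (h0 : ev q x M = 0) :
    2 * q.1 * x = -(q.2.1 - 1) * M ∨ 2 * q.1 * x = -(q.2.1 + 1) * M := by
  obtain ⟨h1, -, -⟩ := h
  unfold ev at h0
  have h2 : (2 * q.1 * x + (q.2.1 - 1) * M) * (2 * q.1 * x + (q.2.1 + 1) * M) = 0 := by
    linear_combination (4 * q.1) * h0 + M ^ 2 * h1
  rcases mul_eq_zero.1 h2 with h | h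
  · left; linarith
  · right; linarith

lemma cop6 {e : ℤ} (he : Le e) {M : ℤ} (hM : IsCoprime M 6) : IsCoprime M (6 * e) := by
  have h2 : IsCoprime M 2 := IsCoprime.of_isCoprime_of_dvd_right hM ⟨3, by norm_num⟩
  rcases he with rfl | rfl | rfl
  · exact hM.mul_right h2
  · rw [show (6 : ℤ) * 4 = 6 * (2 * 2) by norm_num]
    exact hM.mul_right (h2.mul_right h2)
  · rw [show (6 : ℤ) * 8 = 6 * (2 * (2 * 2)) by norm_num]
    exact hM.mul_right (h2.mul_right (h2.mul_right h2))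

/-- points with denominator prime to `6` -/
lemma Ok_of_coprime {e : ℤ} (he : Le e) {x M : ℤ} (hM : IsCoprime M 6) : Ok e x M := by
  intro q hq h0
  obtain ⟨h1, h2⟩ := Fm_mid he hq
  have hM' := cop6 he hM
  obtain ⟨A', hA⟩ : 3 * e ∣ q.1 := hq.2.1
  rcases root hq h0 with h | h
  · apply h1
    have h3 : 6 * e ∣ M * (q.2.1 - 1) := ⟨-(A' * x), by rw [hA] at h; linarith⟩
    exact hM'.symm.dvd_of_dvd_mul_left h3
  · apply h2
    have h3 : 6 * e ∣ M * (q.2.1 + 1) := ⟨-(A' * x), by rw [hA] at h; linarith⟩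
    exact hM'.symm.dvd_of_dvd_mul_left h3

/-- points with denominator divisible by `3 e` -/
lemma Ok_of_dvd {e : ℤ} (he : Le e) {x M : ℤ} (hM : 3 * e ∣ M) (hx : IsCoprime x 6) : Ok e x M := by
  intro q hq h0
  obtain ⟨h1, h2⟩ := Fm_mid he hq
  obtain ⟨s1, s2⟩ := Fm_sq he hq
  have hx' := cop6 he hx
  have hD : q.2.1 ^ 2 - 4 * q.1 * q.2.2 = 1 := hq.1
  obtain ⟨M', rfl⟩ := hM
  rcases root hq h0 with h | h
  · apply h2
    have h3 : (q.2.1 - 1) * ((q.2.1 + 1) * x) = (q.2.1 - 1) * (-(2 * (3 * e * M') * q.2.2)) := by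
      linear_combination (2 * q.2.2) * h + x * hD
    have h4 := mul_left_cancel₀ (sub_ne_zero.2 s1) h3
    have h5 : 6 * e ∣ x * (q.2.1 + 1) := ⟨-(M' * q.2.2), by linarith⟩
    exact hx'.symm.dvd_of_dvd_mul_left h5
  · apply h1
    have h3 : (q.2.1 + 1) * ((q.2.1 - 1) * x) = (q.2.1 + 1) * (-(2 * (3 * e * M') * q.2.2)) := by
      linear_combination (2 * q.2.2) * h + x * hD
    have h4 := mul_left_cancel₀ (by
      intro h5
      apply s2
      linarith : q.2.1 + 1 ≠ 0) h3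
    have h5 : 6 * e ∣ x * (q.2.1 - 1) := ⟨-(M' * q.2.2), by linarith⟩
    exact hx'.symm.dvd_of_dvd_mul_left h5

/-! ### finiteness -/

/-- the forms separating `∞` and `x/M` -/
def SS (e x M : ℤ) : Set (ℤ × ℤ × ℤ) := {q | Fm e q ∧ Int.sign q.1 ≠ Int.sign (ev q x M)}

lemma four_ev {e : ℤ} {q : ℤ × ℤ × ℤ} (h : Fm e q) (x M : ℤ) :
    4 * (q.1 * ev q x M) = (2 * q.1 * x + q.2.1 * M) ^ 2 - M ^ 2 := by
  obtain ⟨h1, -, -⟩ := h
  unfold ev
  linear_combination (-M ^ 2) * h1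

lemma mul_neg_of_sign {a b : ℤ} (ha : a ≠ 0) (hb : b ≠ 0) (h : Int.sign a ≠ Int.sign b) :
    a * b ≤ -1 := by
  rcases lt_or_gt_of_ne ha with h1 | h1 <;> rcases lt_or_gt_of_ne hb with h2 | h2
  · exact absurd (by rw [Int.sign_eq_neg_one_of_neg h1, Int.sign_eq_neg_one_of_neg h2]) h
  · have := mul_neg_of_neg_of_pos h1 h2; omega
  · have := mul_neg_of_pos_of_neg h1 h2; omega
  · exact absurd (by rw [Int.sign_eq_one_of_pos h1, Int.sign_eq_one_of_pos h2]) h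

lemma SS_finite {e : ℤ} (hee : Le e) {x M : ℤ} (hok : Ok e x M) : (SS e x M).Finite := by
  set K : ℤ := (2 * |M| + 2 * M ^ 2 * |x|) ^ 2 + 2 * |M| + 2 * M ^ 2 * |x| + M ^ 2 + 1 with hK
  refine ((Set.finite_Icc (-K) K).prod ((Set.finite_Icc (-K) K).prod
    (Set.finite_Icc (-K) K))).subset ?_
  rintro q ⟨hq, hs⟩
  have ha := Fm_a hee hq
  have he := hok q hq
  have h1 := mul_neg_of_sign ha he hs
  have h4 := four_ev hq x M
  have hM2 : |q.1| ≤ M ^ 2 := by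
    have h5 : |q.1| * |ev q x M| ≤ M ^ 2 := by
      rw [← abs_mul, abs_of_nonpos (by omega)]
      nlinarith [sq_nonneg (2 * q.1 * x + q.2.1 * M), sq_nonneg M]
    have h6 : 1 ≤ |ev q x M| := Int.one_le_abs he
    nlinarith [abs_nonneg q.1]
  have hM0 : M ≠ 0 := by
    rintro rfl
    have : 0 < |q.1| := abs_pos.2 ha
    norm_num at hM2
    omega
  have hMa : 1 ≤ |M| := Int.one_le_abs hM0
  have h7 : |2 * q.1 * x + q.2.1 * M| ≤ 2 * |M| := by
    apply abs_le_of_sq_le_sq' _ (by positivity) |> fun h => abs_le.2 h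
    rw [mul_pow, sq_abs]
    nlinarith [sq_nonneg M]
  have h8 : |q.2.1| ≤ 2 * |M| + 2 * M ^ 2 * |x| := by
    have h9 : |q.2.1 * M| ≤ |2 * q.1 * x + q.2.1 * M| + |2 * q.1 * x| := by
      have : q.2.1 * M = (2 * q.1 * x + q.2.1 * M) - 2 * q.1 * x := by ring
      calc |q.2.1 * M| = |(2 * q.1 * x + q.2.1 * M) - 2 * q.1 * x| := by rw [← this]
        _ ≤ _ := abs_sub _ _
    have h10 : |2 * q.1 * x| ≤ 2 * M ^ 2 * |x| := by
      rw [abs_mul, abs_mul, abs_two]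
      nlinarith [abs_nonneg x]
    rw [abs_mul] at h9
    nlinarith [abs_nonneg q.2.1]
  have h11 : |q.2.2| ≤ q.2.1 ^ 2 + 1 := by
    have hD : q.2.1 ^ 2 - 4 * q.1 * q.2.2 = 1 := hq.1
    have h12 : |q.1| * |q.2.2| * 4 = |q.2.1 ^ 2 - 1| := by
      have : q.2.1 ^ 2 - 1 = 4 * (q.1 * q.2.2) := by linarith
      rw [this, abs_mul, abs_mul]; norm_num; ring
    have h13 : |q.2.1 ^ 2 - 1| ≤ q.2.1 ^ 2 + 1 := by
      rw [abs_le]; constructor <;> nlinarith [sq_nonneg q.2.1]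
    have h14 : 1 ≤ |q.1| := Int.one_le_abs ha
    nlinarith [abs_nonneg q.2.2]
  have h21 : q.2.1 ^ 2 ≤ (2 * |M| + 2 * M ^ 2 * |x|) ^ 2 := by
    rw [← sq_abs q.2.1]
    exact pow_le_pow_left₀ (abs_nonneg _) h8 2
  have p1 : 0 ≤ (2 * |M| + 2 * M ^ 2 * |x|) := by positivity
  have p2 : 0 ≤ (2 * |M| + 2 * M ^ 2 * |x|) ^ 2 := by positivity
  have p3 : 0 ≤ M ^ 2 := by positivity
  have b1 := abs_le.1 hM2
  have b2 := abs_le.1 h8
  have b3 := abs_le.1 h11
  refine ⟨⟨?_, ?_⟩, ⟨?_, ?_⟩, ⟨?_, ?_⟩⟩ <;> rw [hK] <;> linarith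

/-! ### the pairing -/

open Classical in
/-- the summand -/
noncomputable def gs (e x M y N : ℤ) (q : ℤ × ℤ × ℤ) : ℤ :=
  if Fm e q then cQ q * (Int.sign (ev q x M) - Int.sign (ev q y N)) else 0

/-- the signed crossing number (times two) of the geodesic from `x/M` to `y/N` -/
noncomputable def GG (e x M y N : ℤ) : ℤ := ∑ᶠ q, gs e x M y N q

lemma gs_support {e : ℤ} (he : Le e) {x M y N : ℤ} (h1 : Ok e x M) (h2 : Ok e y N) :
    (Function.support (gs e x M y N)).Finite := by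
  refine ((SS_finite he h1).union (SS_finite he h2)).subset ?_
  intro q hq
  unfold gs at hq
  rw [Function.mem_support] at hq
  by_cases hF : Fm e q
  · rw [if_pos hF] at hq
    by_contra h
    rw [Set.mem_union, not_or] at h
    have e1 : Int.sign q.1 = Int.sign (ev q x M) := by
      by_contra h'; exact h.1 ⟨hF, h'⟩
    have e2 : Int.sign q.1 = Int.sign (ev q y N) := by
      by_contra h'; exact h.2 ⟨hF, h'⟩
    exact hq (by rw [← e1, ← e2]; ring)
  · rw [if_neg hF] at hq; exact absurd rfl hq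

lemma GG_add {e : ℤ} (he : Le e) {x M y N z R : ℤ} (h1 : Ok e x M) (h2 : Ok e y N)
    (h3 : Ok e z R) : GG e x M z R = GG e x M y N + GG e y N z R := by
  unfold GG
  rw [← finsum_add_distrib (gs_support he h1 h2) (gs_support he h2 h3)]
  refine finsum_congr fun q => ?_
  unfold gs
  split_ifs <;> ring

/-! ### invariance -/

/-- the action of an integral matrix -/
def act (a b c d : ℤ) (q : ℤ × ℤ × ℤ) : ℤ × ℤ × ℤ :=
  (q.1 * a ^ 2 + q.2.1 * a * c + q.2.2 * c ^ 2,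
    2 * q.1 * a * b + q.2.1 * (a * d + b * c) + 2 * q.2.2 * c * d,
    q.1 * b ^ 2 + q.2.1 * b * d + q.2.2 * d ^ 2)

lemma ev_act (a b c d x M : ℤ) (q : ℤ × ℤ × ℤ) :
    ev (act a b c d q) x M = ev q (a * x + b * M) (c * x + d * M) := by
  unfold ev act; ring

lemma act_act {a b c d : ℤ} (h : a * d - b * c = 1) (q : ℤ × ℤ × ℤ) :
    act a b c d (act d (-b) (-c) a q) = q := by
  unfold act
  ext
  · simp only
    linear_combination (q.1 * (a * d - b * c + 1)) * h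
  · simp only
    linear_combination (q.2.1 * (a * d - b * c + 1)) * h
  · simp only
    linear_combination (q.2.2 * (a * d - b * c + 1)) * h

lemma mid_act {e a b c d : ℤ} (h : a * d - b * c = 1) (hc : 3 * e ∣ c) {q : ℤ × ℤ × ℤ}
    (hq : 3 * e ∣ q.1) : ∃ k, (act a b c d q).2.1 = q.2.1 + 6 * e * k := by
  obtain ⟨c', rfl⟩ := hc
  obtain ⟨A', hA⟩ := hq
  refine ⟨A' * a * b + q.2.1 * b * c' + q.2.2 * c' * d, ?_⟩
  unfold act
  simp only
  rw [hA]
  linear_combination q.2.1 * h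

lemma Fm_act {e : ℤ} (he : Le e) {a b c d : ℤ} (h : a * d - b * c = 1) (hc : 3 * e ∣ c)
    {q : ℤ × ℤ × ℤ} (hq : Fm e q) : Fm e (act a b c d q) := by
  obtain ⟨h1, h2, h3⟩ := hq
  obtain ⟨k, hk⟩ := mid_act h hc h2
  obtain ⟨c', rfl⟩ := hc
  obtain ⟨A', hA⟩ := h2
  refine ⟨?_, ?_, ?_⟩
  · unfold act
    simp only
    linear_combination (a * d - b * (3 * e * c') + 1) * (q.2.1 ^ 2 - 4 * q.1 * q.2.2) * h + h1
  · unfold act
    simp only
    rw [hA]
    exact ⟨A' * a ^ 2 + q.2.1 * a * c' + 3 * e * q.2.2 * c' ^ 2, by ring⟩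
  · rw [hk]
    rcases he with rfl | rfl | rfl <;> omega

lemma Fm_act_iff {e : ℤ} (he : Le e) {a b c d : ℤ} (h : a * d - b * c = 1) (hc : 3 * e ∣ c)
    (q : ℤ × ℤ × ℤ) : Fm e (act a b c d q) ↔ Fm e q := by
  refine ⟨fun h1 => ?_, Fm_act he h hc⟩
  have h2 := Fm_act he (a := d) (b := -b) (c := -c) (d := a) (by linarith)
    ((dvd_neg (α := ℤ)).2 hc) h1
  have h3 := act_act (a := d) (b := -b) (c := -c) (d := a) (by linarith) q
  rw [neg_neg, neg_neg] at h3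
  rwa [h3] at h2

lemma cQ_act {e : ℤ} {a b c d : ℤ} (h : a * d - b * c = 1) (hc : 3 * e ∣ c)
    {q : ℤ × ℤ × ℤ} (hq : Fm e q) : cQ (act a b c d q) = cQ q := by
  obtain ⟨k, hk⟩ := mid_act h hc hq.2.1
  unfold cQ
  rw [hk, show q.2.1 + 6 * e * k = q.2.1 + 3 * (2 * e * k) by ring, Int.add_mul_emod_self_left]

/-- the bijection of the forms -/
def actE {a b c d : ℤ} (h : a * d - b * c = 1) : (ℤ × ℤ × ℤ) ≃ (ℤ × ℤ × ℤ) where
  toFun := act a b c d
  invFun := act d (-b) (-c) a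
  left_inv q := by
    have h4 := act_act (a := d) (b := -b) (c := -c) (d := a) (by linarith) q
    rwa [neg_neg, neg_neg] at h4
  right_inv q := act_act h q

lemma GG_act {e : ℤ} (he : Le e) {a b c d : ℤ} (h : a * d - b * c = 1) (hc : 3 * e ∣ c)
    (x M y N : ℤ) :
    GG e (a * x + b * M) (c * x + d * M) (a * y + b * N) (c * y + d * N) = GG e x M y N := by
  unfold GG
  rw [← finsum_comp_equiv (actE h) (f := gs e x M y N)]
  refine finsum_congr fun q => ?_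
  have e0 : actE h q = act a b c d q := rfl
  rw [e0]
  unfold gs
  by_cases hq : Fm e q
  · rw [if_pos hq, if_pos (Fm_act he h hc hq), cQ_act h hc hq, ev_act, ev_act]
  · rw [if_neg hq, if_neg (fun h' => hq ((Fm_act_iff he h hc q).1 h'))]

/-! ### the relation with `Fe` -/

lemma Fm_neg {e : ℤ} (he : Le e) {q : ℤ × ℤ × ℤ} (hq : Fm e q) : Fm e (-q) := by
  obtain ⟨h1, h2, h3⟩ := hq
  refine ⟨?_, ?_, ?_⟩
  · simp only [Prod.fst_neg, Prod.snd_neg]; linarith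
  · simp only [Prod.fst_neg]; exact (dvd_neg (α := ℤ)).2 h2
  · simp only [Prod.fst_neg, Prod.snd_neg]
    rcases he with rfl | rfl | rfl <;> omega

lemma Fm_three {e : ℤ} {q : ℤ × ℤ × ℤ} (hq : Fm e q) : q.2.1 % 3 = 2 ∨ q.2.1 % 3 = 1 := by
  obtain ⟨-, -, h3⟩ := hq
  rcases h3 with h | h
  · exact Or.inl h.2
  · exact Or.inr h.2

lemma cQ_neg {e : ℤ} {q : ℤ × ℤ × ℤ} (hq : Fm e q) : cQ (-q) = - cQ q := by
  have h3 := Fm_three hq
  unfold cQ
  simp only [Prod.fst_neg, Prod.snd_neg]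
  rcases h3 with h | h
  · rw [if_neg (by omega : ¬ (-q.2.1) % 3 = 2), if_pos h]
  · rw [if_pos (by omega : (-q.2.1) % 3 = 2), if_neg (by omega : ¬ q.2.1 % 3 = 2), neg_neg]

lemma ev_neg (q : ℤ × ℤ × ℤ) (x M : ℤ) : ev (-q) x M = - ev q x M := by
  unfold ev
  simp only [Prod.fst_neg, Prod.snd_neg]
  ring

open Classical in
/-- the summand of `Fe` -/
noncomputable def fs (e x M : ℤ) (q : ℤ × ℤ × ℤ) : ℤ :=
  if Fm e q ∧ 0 < q.1 ∧ ev q x M < 0 then cQ q else 0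

lemma Fe_eq (e x M : ℤ) : Fe e x M = ∑ᶠ q, fs e x M q := rfl

lemma fs_support {e : ℤ} (he : Le e) {x M : ℤ} (h : Ok e x M) :
    (Function.support (fs e x M)).Finite := by
  refine (SS_finite he h).subset ?_
  intro q hq
  rw [Function.mem_support] at hq
  unfold fs at hq
  by_cases hF : Fm e q ∧ 0 < q.1 ∧ ev q x M < 0
  · refine ⟨hF.1, ?_⟩
    rw [Int.sign_eq_one_of_pos hF.2.1, Int.sign_eq_neg_one_of_neg hF.2.2]
    decide
  · rw [if_neg hF] at hq; exact absurd rfl hq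

theorem GG_inf {e : ℤ} (he : Le e) {x M : ℤ} (h : Ok e x M) : GG e 1 0 x M = 4 * Fe e x M := by
  have h1 : ∑ᶠ q, fs e x M (-q) = ∑ᶠ q, fs e x M q :=
    finsum_comp_equiv (Equiv.neg (ℤ × ℤ × ℤ)) (f := fs e x M)
  have hs := fs_support he h
  have hs' : (Function.support (fun q => fs e x M (-q))).Finite := by
    have : Function.support (fun q => fs e x M (-q)) =
        (fun q => -q) ⁻¹' (Function.support (fs e x M)) := by
      ext q; simp
    rw [this]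
    exact hs.preimage (neg_injective.injOn)
  have h2 : GG e 1 0 x M =
      ∑ᶠ q, (fs e x M q + fs e x M q + (fs e x M (-q) + fs e x M (-q))) := by
    unfold GG
    refine finsum_congr fun q => ?_
    unfold gs fs
    by_cases hF : Fm e q
    · rw [if_pos hF, ev_inf, ev_neg, cQ_neg hF]
      have ha := Fm_a he hF
      have hev := h q hF
      simp only [hF, Fm_neg he hF, true_and, Prod.fst_neg]
      rcases lt_or_gt_of_ne ha with h1 | h1 <;> rcases lt_or_gt_of_ne hev with h2 | h2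
      · rw [Int.sign_eq_neg_one_of_neg h1, Int.sign_eq_neg_one_of_neg h2, if_neg (by omega),
          if_neg (by omega)]; ring
      · rw [Int.sign_eq_neg_one_of_neg h1, Int.sign_eq_one_of_pos h2, if_neg (by omega),
          if_pos (by omega)]; ring
      · rw [Int.sign_eq_one_of_pos h1, Int.sign_eq_neg_one_of_neg h2, if_pos (by omega),
          if_neg (by omega)]; ring
      · rw [Int.sign_eq_one_of_pos h1, Int.sign_eq_one_of_pos h2, if_neg (by omega),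
          if_neg (by omega)]; ring
    · have hF' : ¬ Fm e (-q) := fun h' => hF (by have := Fm_neg he h'; rwa [neg_neg] at this)
      rw [if_neg hF, if_neg (fun h' => hF h'.1), if_neg (fun h' => hF' h'.1)]; ring
  rw [h2, finsum_add_distrib (hs.union hs |>.subset (Function.support_add _ _))
    (hs'.union hs' |>.subset (Function.support_add _ _)), finsum_add_distrib hs hs,
    finsum_add_distrib hs' hs', h1, Fe_eq]
  ring

/-- the main formula -/
theorem Fe_act {e : ℤ} (he : Le e) {a b c d : ℤ} (h : a * d - b * c = 1) (hc : 3 * e ∣ c)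
    {x M : ℤ} (h1 : Ok e x M) (h2 : Ok e (a * x + b * M) (c * x + d * M)) (h3 : Ok e a c) :
    Fe e (a * x + b * M) (c * x + d * M) = Fe e a c + Fe e x M := by
  have e1 := GG_inf he h2
  have e2 := GG_inf he h1
  have e3 := GG_inf he h3
  have e4 := GG_add he (Ok_inf he) h3 h2
  have e5 := GG_act he h hc 1 0 x M
  rw [show a * 1 + b * 0 = a by ring, show c * 1 + d * 0 = c by ring] at e5
  omega

/-- the oddness -/
theorem Fe_neg {e : ℤ} (he : Le e) (x M : ℤ) : Fe e (-x) M = - Fe e x M := by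
  rw [Fe_eq, Fe_eq]
  have e0 : (∑ᶠ q, fs e (-x) M q) = ∑ᶠ q : ℤ × ℤ × ℤ, fs e (-x) M (q.1, -q.2.1, q.2.2) := by
    let E : (ℤ × ℤ × ℤ) ≃ (ℤ × ℤ × ℤ) :=
      { toFun := fun q => (q.1, -q.2.1, q.2.2)
        invFun := fun q => (q.1, -q.2.1, q.2.2)
        left_inv := fun q => by simp
        right_inv := fun q => by simp }
    exact (finsum_comp_equiv E (f := fs e (-x) M)).symm
  rw [e0, ← finsum_neg_distrib]
  refine finsum_congr fun q => ?_
  unfold fs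
  have h1 : ev (q.1, -q.2.1, q.2.2) (-x) M = ev q x M := by unfold ev; ring
  have h2 : Fm e (q.1, -q.2.1, q.2.2) ↔ Fm e q := by
    unfold Fm
    simp only
    constructor
    · rintro ⟨a1, a2, a3⟩
      refine ⟨by linarith, a2, ?_⟩
      rcases he with rfl | rfl | rfl <;> omega
    · rintro ⟨a1, a2, a3⟩
      refine ⟨by linarith, a2, ?_⟩
      rcases he with rfl | rfl | rfl <;> omega
  rw [h1]
  by_cases hF : Fm e q ∧ 0 < q.1 ∧ ev q x M < 0
  · rw [if_pos hF, if_pos (⟨h2.2 hF.1, hF.2⟩ : Fm e (q.1, -q.2.1, q.2.2) ∧ 0 < q.1 ∧ ev q x M < 0)]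
    have h3 := Fm_three hF.1
    unfold cQ
    simp only
    rcases h3 with h | h
    · rw [if_neg (by omega : ¬ (-q.2.1) % 3 = 2), if_pos h]
    · rw [if_pos (by omega : (-q.2.1) % 3 = 2), if_neg (by omega : ¬ q.2.1 % 3 = 2), neg_neg]
  · rw [if_neg hF, if_neg (fun h' : Fm e (q.1, -q.2.1, q.2.2) ∧ 0 < q.1 ∧ ev q x M < 0 =>
      hF ⟨h2.1 h'.1, h'.2⟩)]; ring

theorem Fe_neg_neg (e x M : ℤ) : Fe e (-x) (-M) = Fe e x M := by
  rw [Fe_eq, Fe_eq]
  refine finsum_congr fun q => ?_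
  unfold fs
  have h1 : ev q (-x) (-M) = ev q x M := by unfold ev; ring
  rw [h1]

theorem Fe_scale (e x M : ℤ) {t : ℤ} (ht : 0 < t) : Fe e (t * x) (t * M) = Fe e x M := by
  rw [Fe_eq, Fe_eq]
  refine finsum_congr fun q => ?_
  unfold fs
  have h1 : ev q (t * x) (t * M) = t ^ 2 * ev q x M := by unfold ev; ring
  have h2 : (t ^ 2 * ev q x M < 0) ↔ ev q x M < 0 := by
    have h3 : 0 < t ^ 2 := by positivity
    constructor
    · intro h
      by_contra h4
      push Not at h4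
      have := mul_nonneg h3.le h4
      linarith
    · intro h
      exact mul_neg_of_pos_of_neg h3 h
  rw [h1]
  by_cases hF : Fm e q ∧ 0 < q.1 ∧ ev q x M < 0
  · rw [if_pos hF, if_pos ⟨hF.1, hF.2.1, h2.2 hF.2.2⟩]
  · rw [if_neg hF, if_neg (fun h => hF ⟨h.1, h.2.1, h2.1 h.2.2⟩)]

theorem Fe_inf (e x : ℤ) : Fe e x 0 = 0 := by
  rw [Fe_eq]
  have : ∀ q, fs e x 0 q = 0 := by
    intro q
    unfold fs
    rw [if_neg]
    rintro ⟨-, h1, h2⟩
    unfold ev at h2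
    nlinarith [sq_nonneg x]
  simp [this]

theorem Fe_zero_one {e : ℤ} (he : Le e) : Fe e 0 1 = 0 := by
  rw [Fe_eq]
  refine finsum_eq_zero_of_forall_eq_zero fun q => ?_
  unfold fs
  rw [if_neg]
  rintro ⟨hq, hA, hev⟩
  obtain ⟨s1, s2⟩ := Fm_sq he hq
  have hD : q.2.1 ^ 2 - 4 * q.1 * q.2.2 = 1 := hq.1
  unfold ev at hev
  norm_num at hev
  have h1 : 1 ≤ q.1 * (-q.2.2) := by nlinarith
  nlinarith [sq_nonneg q.2.1]

end Pool.Agent.Run7.h843.P24.Lk
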