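import Mathlib

/-!
# Generators of `Γ₀(24)` and homomorphisms to the reals (after `Run7/h741/P15/Gen.lean`)
-/

set_option autoImplicit false

namespace Pool.Agent.Run7.h843.P24.Lk

/-- `h a b c d` is a homomorphism on the matrices `(a, b; 24 c, d)` -/
def Hm (h : ℤ → ℤ → ℤ → ℤ → ℝ) : Prop := ∀ a b c d a' b' c' d' : ℤ, a * d - b * (24 * c) = 1 →
  a' * d' - b' * (24 * c') = 1 →
  h (a * a' + b * (24 * c')) (a * b' + b * d') (c * a' + d * c') (24 * c * b' + d * d') =
    h a b c d + h a' b' c' d'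

section

variable {h : ℤ → ℤ → ℤ → ℤ → ℝ} (hm : Hm h)

include hm

lemma Hm.one : h 1 0 0 1 = 0 := by
  have := hm 1 0 0 1 1 0 0 1 (by norm_num) (by norm_num)
  norm_num at this
  exact this

lemma Hm.neg_one : h (-1) 0 0 (-1) = 0 := by
  have h1 := hm (-1) 0 0 (-1) (-1) 0 0 (-1) (by norm_num) (by norm_num)
  have h2 := Hm.one hm
  norm_num at h1
  rw [h2] at h1
  linarith

lemma Hm.neg {a b c d : ℤ} (hd : a * d - b * (24 * c) = 1) : h (-a) (-b) (-c) (-d) = h a b c d := by
  have h1 := hm (-1) 0 0 (-1) a b c d (by norm_num) hd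
  rw [Hm.neg_one hm] at h1
  rw [show -1 * a + 0 * (24 * c) = -a by ring, show -1 * b + 0 * d = -b by ring,
    show 0 * a + -1 * c = -c by ring, show 24 * 0 * b + -1 * d = -d by ring] at h1
  linarith

lemma Hm.inv {a b c d : ℤ} (hd : a * d - b * (24 * c) = 1) : h d (-b) (-c) a = - h a b c d := by
  have h1 := hm a b c d d (-b) (-c) a hd (by linarith)
  rw [show a * d + b * (24 * -c) = 1 by linarith, show a * -b + b * a = 0 by ring,
    show c * d + d * -c = 0 by ring, show 24 * c * -b + d * a = 1 by linarith, Hm.one hm] at h1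
  linarith

lemma Hm.T (hT : h 1 1 0 1 = 0) (m : ℤ) : h 1 m 0 1 = 0 := by
  have key : ∀ k : ℕ, h 1 k 0 1 = 0 := by
    intro k
    induction k with
    | zero => exact_mod_cast Hm.one hm
    | succ k ih =>
      have h1 := hm 1 k 0 1 1 1 0 1 (by norm_num) (by norm_num)
      rw [ih, hT, show (1 : ℤ) * 1 + k * (24 * 0) = 1 by ring,
        show (1 : ℤ) * 1 + (k : ℤ) * 1 = ((k + 1 : ℕ) : ℤ) by push_cast; ring,
        show (0 : ℤ) * 1 + 1 * 0 = 0 by ring, show (24 : ℤ) * 0 * 1 + 1 * 1 = 1 by ring] at h1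
      linarith
  rcases Int.eq_nat_or_neg m with ⟨k, rfl | rfl⟩
  · exact key k
  · have h1 := Hm.inv hm (a := 1) (b := k) (c := 0) (d := 1) (by norm_num)
    rw [key k, neg_zero, neg_zero] at h1
    exact h1

lemma Hm.T_mul (hT : h 1 1 0 1 = 0) (m : ℤ) {a b c d : ℤ} (hd : a * d - b * (24 * c) = 1) :
    h (a + m * (24 * c)) (b + m * d) c d = h a b c d := by
  have h1 := hm 1 m 0 1 a b c d (by norm_num) hd
  rw [Hm.T hm hT, show 1 * a + m * (24 * c) = a + m * (24 * c) by ring,
    show 1 * b + m * d = b + m * d by ring, show 0 * a + 1 * c = c by ring,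
    show 24 * 0 * b + 1 * d = d by ring] at h1
  linarith

lemma Hm.mul_T (hT : h 1 1 0 1 = 0) (m : ℤ) {a b c d : ℤ} (hd : a * d - b * (24 * c) = 1) :
    h a (a * m + b) c (24 * c * m + d) = h a b c d := by
  have h1 := hm a b c d 1 m 0 1 hd (by norm_num)
  rw [Hm.T hm hT, show a * 1 + b * (24 * 0) = a by ring,
    show a * m + b * 1 = a * m + b by ring, show c * 1 + d * 0 = c by ring,
    show 24 * c * m + d * 1 = 24 * c * m + d by ring] at h1
  linarith

end

/-- the generators -/
structure Gens (h : ℤ → ℤ → ℤ → ℤ → ℝ) : Prop where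
  hm : Hm h
  T : h 1 1 0 1 = 0
  g1 : h (-1) 0 1 (-1) = 0
  g5 : h (-5) 1 1 (-5) = 0
  g7 : h (-7) 2 1 (-7) = 0
  g11 : h (-11) 5 1 (-11) = 0
  g13 : h (-13) 7 1 (-13) = 0
  g17 : h (-17) 12 1 (-17) = 0
  g19 : h (-19) 15 1 (-19) = 0
  g23 : h (-23) 22 1 (-23) = 0
  k5 : h (-29) 3 2 (-5) = 0
  k7 : h (-7) 1 2 (-7) = 0
  k17 : h (-17) 6 2 (-17) = 0
  k19 : h (-43) 17 2 (-19) = 0
  k29 : h (-5) 3 2 (-29) = 0
  k31 : h (-31) 20 2 (-31) = 0
  k41 : h (-41) 35 2 (-41) = 0
  k43 : h (-19) 17 2 (-43) = 0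

/-- a homomorphism which vanishes on the generators is zero -/
theorem Gens.zero {h : ℤ → ℤ → ℤ → ℤ → ℝ} (G : Gens h) :
    ∀ (n : ℕ) (a b c d : ℤ), c.natAbs = n → a * d - b * (24 * c) = 1 → h a b c d = 0 := by
  intro n
  induction n using Nat.strong_induction_on with
  | _ n ih =>
  -- positive `c`
  have pos : ∀ a b c d : ℤ, c.natAbs = n → 0 < c → a * d - b * (24 * c) = 1 → h a b c d = 0 := by
    intro a b c d hn hc hd
    -- reduce the first entry
    obtain ⟨m, hm0, hm1⟩ : ∃ m : ℤ, 0 ≤ a + m * (24 * c) ∧ a + m * (24 * c) < 24 * c := by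
      refine ⟨-(a / (24 * c)), ?_, ?_⟩
      · have := Int.emod_nonneg a (by positivity : (24 * c) ≠ 0)
        rw [Int.emod_def] at this; linarith
      · have := Int.emod_lt_of_pos a (by positivity : 0 < 24 * c)
        rw [Int.emod_def] at this; linarith
    rw [← Hm.T_mul G.hm G.T m hd]
    have hd' : (a + m * (24 * c)) * d - (b + m * d) * (24 * c) = 1 := by linarith
    generalize a + m * (24 * c) = s at hm0 hm1 hd' ⊢
    generalize b + m * d = t at hd' ⊢
    have n2 : ¬ (2 : ℤ) ∣ s := by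
      rintro ⟨u, hu⟩
      rw [hu] at hd'
      have : (2 : ℤ) ∣ 1 := ⟨u * d - t * (12 * c), by linarith⟩
      omega
    have n3 : ¬ (3 : ℤ) ∣ s := by
      rintro ⟨u, hu⟩
      rw [hu] at hd'
      have : (3 : ℤ) ∣ 1 := ⟨u * d - t * (8 * c), by linarith⟩
      omega
    have step : ∀ α β γ δ : ℤ, α * δ - β * (24 * γ) = 1 → h α β γ δ = 0 →
        |γ * s + δ * c| < c → h s t c d = 0 := by
      intro α β γ δ h1 h2 h3
      have h4 := G.hm α β γ δ s t c d h1 hd'
      have h5 : (γ * s + δ * c).natAbs < n := by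
        rw [← hn]
        have : |γ * s + δ * c| < |c| := lt_of_lt_of_le h3 (le_abs_self c)
        zify
        exact this
      have h6 := ih _ h5 (α * s + β * (24 * c)) (α * t + β * d) (γ * s + δ * c)
        (24 * γ * t + δ * d) rfl (by linear_combination (α * δ - β * (24 * γ)) * hd' + h1)
      rw [h6, h2] at h4
      linarith
    have ev : ∀ k : ℤ, s ≠ 2 * k * c := fun k h => n2 ⟨k * c, by linarith⟩
    have ed : ∀ k : ℤ, s ≠ 3 * k * c := fun k h => n3 ⟨k * c, by linarith⟩
    have d0 : s ≠ 0 := by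
      have := ev 0
      norm_num at this
      exact this
    have d2 : s ≠ 2 * c := by
      have := ev 1
      norm_num at this
      exact this
    have d3 : s ≠ 3 * c := by
      have := ed 1
      norm_num at this
      exact this
    have d4 : s ≠ 4 * c := by
      have := ev 2
      norm_num at this
      exact this
    have d6 : s ≠ 6 * c := by
      have := ev 3
      norm_num at this
      exact this
    have d8 : s ≠ 8 * c := by
      have := ev 4
      norm_num at this
      exact this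
    have d9 : s ≠ 9 * c := by
      have := ed 3
      norm_num at this
      exact this
    have d10 : s ≠ 10 * c := by
      have := ev 5
      norm_num at this
      exact this
    have d12 : s ≠ 12 * c := by
      have := ev 6
      norm_num at this
      exact this
    have d14 : s ≠ 14 * c := by
      have := ev 7
      norm_num at this
      exact this
    have d15 : s ≠ 15 * c := by
      have := ed 5
      norm_num at this
      exact this
    have d16 : s ≠ 16 * c := by
      have := ev 8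
      norm_num at this
      exact this
    have d18 : s ≠ 18 * c := by
      have := ev 9
      norm_num at this
      exact this
    have d20 : s ≠ 20 * c := by
      have := ev 10
      norm_num at this
      exact this
    have d21 : s ≠ 21 * c := by
      have := ed 7
      norm_num at this
      exact this
    have d22 : s ≠ 22 * c := by
      have := ev 11
      norm_num at this
      exact this
    have hs0 : 0 < s := lt_of_le_of_ne hm0 (Ne.symm d0)
    by_cases c2 : s < 2 * c
    · exact step _ _ _ _ (by norm_num) G.g1 (abs_lt.2 ⟨by linarith, by linarith⟩)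
    by_cases c3 : s < 3 * c
    · have : 2 * c < s := lt_of_le_of_ne (not_lt.1 c2) (Ne.symm d2)
      exact step _ _ _ _ (by norm_num) G.k5 (abs_lt.2 ⟨by linarith, by linarith⟩)
    by_cases c4 : s < 4 * c
    · have : 3 * c < s := lt_of_le_of_ne (not_lt.1 c3) (Ne.symm d3)
      exact step _ _ _ _ (by norm_num) G.k7 (abs_lt.2 ⟨by linarith, by linarith⟩)
    by_cases c6 : s < 6 * c
    · have : 4 * c < s := lt_of_le_of_ne (not_lt.1 c4) (Ne.symm d4)
      exact step _ _ _ _ (by norm_num) G.g5 (abs_lt.2 ⟨by linarith, by linarith⟩)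
    by_cases c8 : s < 8 * c
    · have : 6 * c < s := lt_of_le_of_ne (not_lt.1 c6) (Ne.symm d6)
      exact step _ _ _ _ (by norm_num) G.g7 (abs_lt.2 ⟨by linarith, by linarith⟩)
    by_cases c9 : s < 9 * c
    · have : 8 * c < s := lt_of_le_of_ne (not_lt.1 c8) (Ne.symm d8)
      exact step _ _ _ _ (by norm_num) G.k17 (abs_lt.2 ⟨by linarith, by linarith⟩)
    by_cases c10 : s < 10 * c
    · have : 9 * c < s := lt_of_le_of_ne (not_lt.1 c9) (Ne.symm d9)
      exact step _ _ _ _ (by norm_num) G.k19 (abs_lt.2 ⟨by linarith, by linarith⟩)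
    by_cases c12 : s < 12 * c
    · have : 10 * c < s := lt_of_le_of_ne (not_lt.1 c10) (Ne.symm d10)
      exact step _ _ _ _ (by norm_num) G.g11 (abs_lt.2 ⟨by linarith, by linarith⟩)
    by_cases c14 : s < 14 * c
    · have : 12 * c < s := lt_of_le_of_ne (not_lt.1 c12) (Ne.symm d12)
      exact step _ _ _ _ (by norm_num) G.g13 (abs_lt.2 ⟨by linarith, by linarith⟩)
    by_cases c15 : s < 15 * c
    · have : 14 * c < s := lt_of_le_of_ne (not_lt.1 c14) (Ne.symm d14)
      exact step _ _ _ _ (by norm_num) G.k29 (abs_lt.2 ⟨by linarith, by linarith⟩)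
    by_cases c16 : s < 16 * c
    · have : 15 * c < s := lt_of_le_of_ne (not_lt.1 c15) (Ne.symm d15)
      exact step _ _ _ _ (by norm_num) G.k31 (abs_lt.2 ⟨by linarith, by linarith⟩)
    by_cases c18 : s < 18 * c
    · have : 16 * c < s := lt_of_le_of_ne (not_lt.1 c16) (Ne.symm d16)
      exact step _ _ _ _ (by norm_num) G.g17 (abs_lt.2 ⟨by linarith, by linarith⟩)
    by_cases c20 : s < 20 * c
    · have : 18 * c < s := lt_of_le_of_ne (not_lt.1 c18) (Ne.symm d18)
      exact step _ _ _ _ (by norm_num) G.g19 (abs_lt.2 ⟨by linarith, by linarith⟩)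
    by_cases c21 : s < 21 * c
    · have : 20 * c < s := lt_of_le_of_ne (not_lt.1 c20) (Ne.symm d20)
      exact step _ _ _ _ (by norm_num) G.k41 (abs_lt.2 ⟨by linarith, by linarith⟩)
    by_cases c22 : s < 22 * c
    · have : 21 * c < s := lt_of_le_of_ne (not_lt.1 c21) (Ne.symm d21)
      exact step _ _ _ _ (by norm_num) G.k43 (abs_lt.2 ⟨by linarith, by linarith⟩)
    · have : 22 * c < s := lt_of_le_of_ne (not_lt.1 c22) (Ne.symm d22)
      exact step _ _ _ _ (by norm_num) G.g23 (abs_lt.2 ⟨by linarith, by linarith⟩)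
  intro a b c d hn hd
  rcases lt_trichotomy c 0 with hc | rfl | hc
  · rw [← Hm.neg G.hm hd]
    exact pos _ _ _ _ (by rw [Int.natAbs_neg, hn]) (by linarith) (by linarith)
  · have h1 : a * d = 1 := by linarith
    rcases Int.eq_one_or_neg_one_of_mul_eq_one h1 with rfl | rfl
    · have : d = 1 := by linarith
      subst this
      exact Hm.T G.hm G.T b
    · have : d = -1 := by linarith
      subst this
      have h2 := Hm.neg G.hm (a := 1) (b := -b) (c := 0) (d := 1) (by norm_num)
      rw [neg_neg, neg_zero, Hm.T G.hm G.T] at h2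
      exact h2
  · exact pos _ _ _ _ hn hc hd

/-- the data which determine an odd homomorphism: it vanishes on the parabolic elements -/
structure Dat (h : ℤ → ℤ → ℤ → ℤ → ℝ) : Prop where
  hm : Hm h
  T : h 1 1 0 1 = 0
  P1 : h 1 0 1 1 = 0
  P2 : h (-11) 6 (-1) 13 = 0
  P3 : h (-23) 8 (-3) 25 = 0
  P4 : h (-11) 3 (-2) 13 = 0
  P6 : h (-11) 2 (-3) 13 = 0
  P12 : h (-11) 1 (-6) 13 = 0
  odd : ∀ a b c d : ℤ, a * d - b * (24 * c) = 1 → h a (-b) (-c) d = - h a b c d
  g : h (-5) 1 1 (-5) = 0

/-- the reflection -/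
lemma Dat.flip {h : ℤ → ℤ → ℤ → ℤ → ℝ} (D : Dat h) {a b c d : ℤ}
    (hd : a * d - b * (24 * c) = 1) : h (-a) b c (-d) = - h a b c d := by
  have h1 := D.odd a b c d hd
  have h2 := Hm.neg D.hm (a := a) (b := -b) (c := -c) (d := d) (by linarith)
  rw [neg_neg, neg_neg] at h2
  linarith

/-- the reflection with translations: from `(-x, b; 24 c, -x)` to the class of `24 c - x` -/
lemma Dat.flipT {h : ℤ → ℤ → ℤ → ℤ → ℝ} (D : Dat h) {a b c d : ℤ}
    (hd : a * d - b * (24 * c) = 1) :
    h (-a - 24 * c) (a + b + d + 24 * c) c (-d - 24 * c) = - h a b c d := by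
  have h1 := D.flip hd
  have h2 := Hm.T_mul D.hm D.T (-1) (a := -a) (b := b) (c := c) (d := -d) (by linarith)
  have h3 := Hm.mul_T D.hm D.T (-1) (a := -a + -1 * (24 * c)) (b := b + -1 * -d) (c := c) (d := -d)
    (by linear_combination hd)
  rw [h2, h1] at h3
  rw [← h3]
  congr 1 <;> ring

theorem Dat.gens {h : ℤ → ℤ → ℤ → ℤ → ℝ} (D : Dat h) : Gens h := by
  have hm := D.hm
  have hT := D.T
  have g5 := D.g
  -- the class of `1`
  have g1 : h (-1) 0 1 (-1) = 0 := by
    have h1 := D.flip (a := 1) (b := 0) (c := 1) (d := 1) (by norm_num)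
    rw [h1, D.P1, neg_zero]
  have g23 : h (-23) 22 1 (-23) = 0 := by
    have h1 := D.flipT (a := -1) (b := 0) (c := 1) (d := -1) (by norm_num)
    norm_num at h1
    rw [h1, g1, neg_zero]
  -- the class of `11`
  have g11 : h (-11) 5 1 (-11) = 0 := by
    have h0 := Hm.neg hm (a := -11) (b := 6) (c := -1) (d := 13) (by norm_num)
    have h1 := D.flip (a := 11) (b := -6) (c := 1) (d := -13) (by norm_num)
    have h2 := Hm.mul_T hm hT (-1) (a := -11) (b := -6) (c := 1) (d := 13) (by norm_num)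
    have h3 := D.P2
    norm_num at h0 h1 h2 h3
    linarith
  have g13 : h (-13) 7 1 (-13) = 0 := by
    have h1 := D.flipT (a := -11) (b := 5) (c := 1) (d := -11) (by norm_num)
    norm_num at h1
    rw [h1, g11, neg_zero]
  have g19 : h (-19) 15 1 (-19) = 0 := by
    have h1 := D.flipT (a := -5) (b := 1) (c := 1) (d := -5) (by norm_num)
    norm_num at h1
    rw [h1, g5, neg_zero]
  -- the cusp `1/4`
  have g7 : h (-7) 2 1 (-7) = 0 := by
    have h0 := Hm.neg hm (a := -11) (b := 3) (c := -2) (d := 13) (by norm_num)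
    have h1 := hm (-5) 1 1 (-5) 11 (-3) 2 (-13) (by norm_num) (by norm_num)
    have h3 := D.P4
    norm_num at h0 h1 h3
    linarith
  have g17 : h (-17) 12 1 (-17) = 0 := by
    have h1 := D.flipT (a := -7) (b := 2) (c := 1) (d := -7) (by norm_num)
    norm_num at h1
    rw [h1, g7, neg_zero]
  -- the cusp `1/3`
  have k17 : h (-17) 6 2 (-17) = 0 := by
    have h0 := Hm.neg hm (a := -23) (b := 8) (c := -3) (d := 25) (by norm_num)
    have h1 := hm (-7) 2 1 (-7) 23 (-8) 3 (-25) (by norm_num) (by norm_num)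
    have h3 := D.P3
    norm_num at h0 h1 h3
    linarith
  have k31 : h (-31) 20 2 (-31) = 0 := by
    have h1 := D.flipT (a := -17) (b := 6) (c := 2) (d := -17) (by norm_num)
    norm_num at h1
    rw [h1, k17, neg_zero]
  -- the cusp `1/6`
  have k7 : h (-7) 1 2 (-7) = 0 := by
    have h0 := Hm.neg hm (a := -11) (b := 2) (c := -3) (d := 13) (by norm_num)
    have h1 := hm (-7) 1 2 (-7) 11 (-2) 3 (-13) (by norm_num) (by norm_num)
    have h3 := D.P6
    norm_num at h0 h1 h3
    linarith
  have k41 : h (-41) 35 2 (-41) = 0 := by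
    have h1 := D.flipT (a := -7) (b := 1) (c := 2) (d := -7) (by norm_num)
    norm_num at h1
    rw [h1, k7, neg_zero]
  -- the class of `5 / 2`
  have f43 : h (-19) 17 2 (-43) = - h (-29) 3 2 (-5) := by
    have h1 := D.flipT (a := -29) (b := 3) (c := 2) (d := -5) (by norm_num)
    norm_num at h1
    exact h1
  have k5 : h (-29) 3 2 (-5) = 0 := by
    have h0 := Hm.neg hm (a := -11) (b := 1) (c := -6) (d := 13) (by norm_num)
    have h1 := hm (-1) 0 1 (-1) 11 (-1) 6 (-13) (by norm_num) (by norm_num)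
    have h2 := Hm.T_mul hm hT 1 (a := -11) (b := 1) (c := 5) (d := -11) (by norm_num)
    have h3 := hm (-19) 17 2 (-43) 109 (-10) 5 (-11) (by norm_num) (by norm_num)
    have h4 := Hm.T_mul hm hT 1 (a := -31) (b := 3) (c := 3) (d := -7) (by norm_num)
    have h5 := hm (-13) 7 1 (-13) 41 (-4) 3 (-7) (by norm_num) (by norm_num)
    have h6 := D.P12
    norm_num at h0 h1 h2 h3 h4 h5 h6
    linarith
  have k43 : h (-19) 17 2 (-43) = 0 := by rw [f43, k5, neg_zero]
  have k29 : h (-5) 3 2 (-29) = 0 := by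
    have h1 := Hm.inv hm (a := -29) (b := 3) (c := 2) (d := -5) (by norm_num)
    have h2 := Hm.neg hm (a := -5) (b := -3) (c := -2) (d := -29) (by norm_num)
    have h3 := D.flip (a := 5) (b := 3) (c := 2) (d := 29) (by norm_num)
    norm_num at h1 h2 h3
    linarith
  have k19 : h (-43) 17 2 (-19) = 0 := by
    have h1 := D.flipT (a := -5) (b := 3) (c := 2) (d := -29) (by norm_num)
    norm_num at h1
    rw [h1, k29, neg_zero]
  exact ⟨hm, hT, g1, g5, g7, g11, g13, g17, g19, g23, k5, k7, k17, k19, k29, k31, k41, k43⟩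

/-- an odd homomorphism with these zeros vanishes -/
theorem Dat.zero {h : ℤ → ℤ → ℤ → ℤ → ℝ} (D : Dat h) (a b c d : ℤ)
    (hd : a * d - b * (24 * c) = 1) : h a b c d = 0 := D.gens.zero _ a b c d rfl hd

end Pool.Agent.Run7.h843.P24.Lk
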