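import Pool.Agent.Run7.h741.MH.Opt
import Pool.Agent.Run7.h843.P24.GF

/-!
The modular symbols of level `24` (after `Run7/h741/MF/Sym.lean`).
-/

set_option autoImplicit false

open Filter Topology MeasureTheory Set

namespace Pool.Agent.Run7.h843.P24.MS

open Pool.Agent.W97.TW
open Pool.Agent.W97.MT (qq qq_ne norm_qq norm_qq_lt im_mul z_ne H_open QV iI iI_pos iI_eventually
  tendsto_qq hasDerivAt_qq tpi_ne line_im line_re inv_I im_aux frac_aux qq_conj)
open Pool.Agent.Run7.h741.MH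
open Pool.Agent.Run7.h741.MF (hqe)
open Pool.Agent.Run7.h843.P24.Lk (Hm hom_eq Gp Gp_cusp0)

/-! ### the period homomorphism -/

lemma det_mul {a b c d a' b' c' d' : ℤ} (h : a * d - b * (24 * c) = 1)
    (h' : a' * d' - b' * (24 * c') = 1) :
    (a * a' + b * (24 * c')) * (24 * c * b' + d * d') -
      (a * b' + b * d') * (24 * (c * a' + d * c')) = 1 := by
  linear_combination (a' * d' - b' * (24 * c')) * h + h'

lemma per_mul {a b c d a' b' c' d' : ℤ} (h : a * d - b * (24 * c) = 1)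
    (h' : a' * d' - b' * (24 * c') = 1) :
    per (a * a' + b * (24 * c')) (a * b' + b * d') (c * a' + d * c') (24 * c * b' + d * d') =
      per a b c d + per a' b' c' d' := by
  have hdet := det_mul h h'
  have hz := I_pos
  have h1 := (G_gamma h' hz).1
  have h2 := (G_gamma h' hz).2.1
  have e := per_spec h h1
  rw [per_spec h' hz] at e
  refine per_eq hdet hz ?_
  rw [add_comm (per a b c d), ← add_assoc, ← e]
  congr 1
  push_cast
  rw [frac_aux _ _ h2, frac_aux _ _ h2, div_div_div_cancel_right₀ h2]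
  congr 1 <;> ring

/-- the imaginary part -/
noncomputable def hI (a b c d : ℤ) : ℝ := (per a b c d).im

lemma hI_hm : Hm hI := by
  intro a b c d a' b' c' d' h h'
  unfold hI
  rw [per_mul h h', Complex.add_im]

lemma F_add_one (z : ℂ) : F (z + 1) = F z := by
  unfold F
  congr 1
  unfold qq
  rw [mul_add, Complex.exp_add, mul_one, Complex.exp_two_pi_mul_I, mul_one]

lemma per_T : per 1 1 0 1 = 0 := by
  unfold per
  have : (((1 : ℤ) : ℂ) * Complex.I + ((1 : ℤ) : ℂ)) / (24 * ((0 : ℤ) : ℂ) * Complex.I + ((1 : ℤ) : ℂ)) =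
      Complex.I + 1 := by
    push_cast; ring
  rw [this, F_add_one, sub_self]

lemma qq_int (z : ℂ) (e : ℤ) : qq (z + e) = qq z := by
  unfold qq
  rw [mul_add, Complex.exp_add, mul_comm (2 * (Real.pi : ℂ) * Complex.I) (e : ℂ),
    Complex.exp_int_mul_two_pi_mul_I, mul_one]

lemma im_int {z : ℂ} {e : ℤ} : (z + (e : ℂ)).im = z.im := by simp

/-- the primitive along a translate at a cusp -/
lemma F_shift {m j : ℂ → ℂ} (hm : IsMap m j) (e : ℤ) {a b c d : ℤ} (h : a * d - b * (24 * c) = 1)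
    (he : ∀ z : ℂ, 0 < z.im → (a * m z + b) / (24 * c * m z + d) = m (z + e)) :
    per a b c d = 0 := by
  obtain ⟨C, Ψ, aΨ, h0, h1⟩ := hm.const
  obtain ⟨T, hT, h2⟩ := iI_eventually.1 h1
  set z0 : ℂ := ((T + 1 : ℝ) : ℂ) * Complex.I with hz0
  have e0 : T < z0.im := by rw [hz0]; simp
  have e1 : T < (z0 + e).im := by rw [im_int]; exact e0
  have hz : 0 < z0.im := lt_of_le_of_lt hT e0
  have h3 := per_spec h (hm.pos _ hz)
  rw [he z0 hz, h2 _ e0, h2 _ e1, qq_int] at h3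
  exact (add_eq_left.1 h3.symm)

/-- the same at the image of the cusp under a matrix of the group -/
lemma F_shift' {m j : ℂ → ℂ} (hm : IsMap m j) (e : ℤ) {α β γ δ : ℤ}
    (h' : α * δ - β * (24 * γ) = 1) {a b c d : ℤ} (h : a * d - b * (24 * c) = 1)
    (he : ∀ z : ℂ, 0 < z.im → (a * ((α * m z + β) / (24 * γ * m z + δ)) + b) /
      (24 * c * ((α * m z + β) / (24 * γ * m z + δ)) + d) =
      (α * m (z + e) + β) / (24 * γ * m (z + e) + δ)) :
    per a b c d = 0 := by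
  obtain ⟨C, Ψ, aΨ, h0, h1⟩ := hm.const
  obtain ⟨T, hT, h2⟩ := iI_eventually.1 h1
  set z0 : ℂ := ((T + 1 : ℝ) : ℂ) * Complex.I with hz0
  have e0 : T < z0.im := by rw [hz0]; simp
  have e1 : T < (z0 + e).im := by rw [im_int]; exact e0
  have hz : 0 < z0.im := lt_of_le_of_lt hT e0
  have hz1 : 0 < (z0 + e).im := lt_of_le_of_lt hT e1
  have hg := (G_gamma h' (hm.pos _ hz)).1
  have h3 := per_spec h hg
  rw [he z0 hz, per_spec h' (hm.pos _ hz), per_spec h' (hm.pos _ hz1), h2 _ e0, h2 _ e1,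
    qq_int] at h3
  exact (add_eq_left.1 h3.symm)

lemma mob {a b c d x y : ℂ} (h : y ≠ 0) :
    (a * (x / y) + b) / (c * (x / y) + d) = (a * x + b * y) / (c * x + d * y) := by
  rw [frac_aux _ _ h, frac_aux _ _ h, div_div_div_cancel_right₀ h]

lemma per_0 : per 1 0 1 1 = 0 := by
  refine F_shift map24 (-1) (by norm_num) fun z hz => ?_
  have h0 : (24 * z : ℂ) ≠ 0 := mul_ne_zero (by norm_num) (z_ne hz)
  have h1 := z_ne (z := z + ((-1 : ℤ) : ℂ)) (by rwa [im_int])
  unfold m24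
  rw [mob h0]
  push_cast at h1 ⊢
  have e : (24 * 1 * -1 + 1 * (24 * z) : ℂ) = 24 * (z + -1) := by ring
  rw [e]
  congr 1
  ring

lemma half_eq {x y : ℂ} (h : y ≠ 0) : x / y + 1 / 2 = (2 * x + y) / (2 * y) := by
  field_simp

lemma per_2 : per (-11) 6 (-1) 13 = 0 := by
  refine F_shift map24.half 1 (by norm_num) fun z hz => ?_
  have h0 : (24 * z : ℂ) ≠ 0 := mul_ne_zero (by norm_num) (z_ne hz)
  have h1 : (24 * (z + ((1 : ℤ) : ℂ)) : ℂ) ≠ 0 :=
    mul_ne_zero (by norm_num) (z_ne (z := z + ((1 : ℤ) : ℂ)) (by rwa [im_int]))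
  unfold m24
  rw [half_eq h0, half_eq h1, mob (mul_ne_zero two_ne_zero h0)]
  push_cast
  congr 1 <;> ring

lemma per_12 : per (-11) 1 (-6) 13 = 0 := by
  refine F_shift mapv 1 (by norm_num) fun z hz => ?_
  have h0 := wv_aux hz
  unfold mv
  rw [mob h0]
  push_cast
  congr 1 <;> ring

lemma lin_ne {z : ℂ} (hz : 0 < z.im) {p q : ℝ} (hp : p ≠ 0) : ((p : ℂ) * z + q : ℂ) ≠ 0 := by
  intro h
  have := congrArg Complex.im h
  simp only [Complex.add_im, Complex.im_ofReal_mul, Complex.ofReal_im, add_zero,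
    Complex.zero_im] at this
  rcases mul_eq_zero.1 this with h1 | h1
  · exact hp h1
  · exact hz.ne' h1

/-- the map to the cusp `1/3` -/
lemma a3 {z : ℂ} (hz : 0 < z.im) : (((19 : ℤ) : ℂ) * m3 (m24 z) + ((-2 : ℤ) : ℂ)) /
    (24 * ((2 : ℤ) : ℂ) * m3 (m24 z) + ((-5 : ℤ) : ℂ)) = (8 * z - 3) / (24 * z - 8) ∧
    (24 * z - 8 : ℂ) ≠ 0 := by
  have h0 : (72 * z - 8 : ℂ) ≠ 0 := by
    have := lin_ne hz (p := 72) (q := -8) (by norm_num)
    push_cast at this
    rwa [← sub_eq_add_neg] at this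
  have h1 : (24 * z - 8 : ℂ) ≠ 0 := by
    have := lin_ne hz (p := 24) (q := -8) (by norm_num)
    push_cast at this
    rwa [← sub_eq_add_neg] at this
  refine ⟨?_, h1⟩
  rw [m324_eq hz, mob h0]
  push_cast
  congr 1 <;> ring

lemma per_3 : per (-23) 8 (-3) 25 = 0 := by
  refine F_shift' (map3.comp map24) 1 (α := 19) (β := -2) (γ := 2) (δ := -5) (by norm_num)
    (by norm_num) fun z hz => ?_
  obtain ⟨e1, n1⟩ := a3 hz
  obtain ⟨e2, n2⟩ := a3 (z := z + ((1 : ℤ) : ℂ)) (by rwa [im_int])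
  rw [e1, e2, mob n1]
  push_cast
  congr 1 <;> ring

/-- the map to the cusp `1/4` -/
lemma a4 {z : ℂ} (hz : 0 < z.im) : (((-19 : ℤ) : ℂ) * mv (m3 z) + ((1 : ℤ) : ℂ)) /
    (24 * ((-4 : ℤ) : ℂ) * mv (m3 z) + ((5 : ℤ) : ℂ)) = (3 * z + 2) / (12 * z + 9) ∧
    (12 * z + 9 : ℂ) ≠ 0 := by
  have h0 : (60 * z + 21 : ℂ) ≠ 0 := by
    have := lin_ne hz (p := 60) (q := 21) (by norm_num)
    push_cast at this
    exact this
  have h1 : (12 * z + 9 : ℂ) ≠ 0 := by
    have := lin_ne hz (p := 12) (q := 9) (by norm_num)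
    push_cast at this
    exact this
  refine ⟨?_, h1⟩
  rw [mv3_eq hz, mob h0]
  push_cast
  congr 1 <;> ring

lemma per_4 : per (-11) 3 (-2) 13 = 0 := by
  refine F_shift' (mapv.comp map3) 1 (α := -19) (β := 1) (γ := -4) (δ := 5) (by norm_num)
    (by norm_num) fun z hz => ?_
  obtain ⟨e1, n1⟩ := a4 hz
  obtain ⟨e2, n2⟩ := a4 (z := z + ((1 : ℤ) : ℂ)) (by rwa [im_int])
  rw [e1, e2, mob n1]
  push_cast
  congr 1 <;> ring

/-- the map to the cusp `1/6` -/
lemma a6 {z : ℂ} (hz : 0 < z.im) : (((-13 : ℤ) : ℂ) * (m3 (m24 z) + 1 / 2) + ((8 : ℤ) : ℂ)) /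
    (24 * ((-4 : ℤ) : ℂ) * (m3 (m24 z) + 1 / 2) + ((59 : ℤ) : ℂ)) =
      (8 * z + 2) / (48 * z + 16) ∧ (48 * z + 16 : ℂ) ≠ 0 := by
  have h0 : (72 * z - 8 : ℂ) ≠ 0 := by
    have := lin_ne hz (p := 72) (q := -8) (by norm_num)
    push_cast at this
    rwa [← sub_eq_add_neg] at this
  have h1 : (48 * z + 16 : ℂ) ≠ 0 := by
    have := lin_ne hz (p := 48) (q := 16) (by norm_num)
    push_cast at this
    exact this
  refine ⟨?_, h1⟩
  rw [m324_eq hz, half_eq h0, mob (mul_ne_zero two_ne_zero h0)]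
  push_cast
  congr 1 <;> ring

lemma per_6 : per (-11) 2 (-3) 13 = 0 := by
  refine F_shift' (map3.comp map24).half 1 (α := -13) (β := 8) (γ := -4) (δ := 59) (by norm_num)
    (by norm_num) fun z hz => ?_
  obtain ⟨e1, n1⟩ := a6 hz
  obtain ⟨e2, n2⟩ := a6 (z := z + ((1 : ℤ) : ℂ)) (by rwa [im_int])
  rw [e1, e2, mob n1]
  push_cast
  congr 1 <;> ring

/-! ### complex conjugation -/

lemma rep_conj {f : ℂ → ℂ} {P : PowerSeries ℤ} (rP : W97.MT.Rep f P) {q : ℂ} (hq : ‖q‖ < 1) :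
    f (starRingEnd ℂ q) = starRingEnd ℂ (f q) := by
  have h1 := rP (starRingEnd ℂ q) (by simpa using hq)
  have h2 := (rP q hq).map (starRingEnd ℂ) Complex.continuous_conj
  refine h1.unique (h2.congr_fun ?_ |> fun x => x)
  intro n
  simp only [Function.comp_apply, map_mul, map_pow, PowerSeries.coeff_map, eq_intCast]
  congr 1
  exact (map_intCast (starRingEnd ℂ) _).symm

lemma neg_conj_im {z : ℂ} (hz : 0 < z.im) : 0 < (-(starRingEnd ℂ z)).im := by simpa using hz

lemma Q_conj {q : ℂ} (hq : ‖q‖ < 1) : Q (starRingEnd ℂ q) = starRingEnd ℂ (Q q) := by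
  obtain ⟨φ, -, hr, -⟩ := hqe
  have hR : W97.MT.Rep Q φ := fun q hq => by
    have := hr q hq
    simpa [Q] using this
  exact rep_conj hR hq

lemma phi_conj {q : ℂ} (hq : ‖q‖ < 1) : phi (starRingEnd ℂ q) = starRingEnd ℂ (phi q) := by
  have hn : ∀ k : ℕ, k ≠ 0 → ‖q ^ k‖ < 1 := fun k hk => by
    rw [norm_pow]; exact pow_lt_one₀ (norm_nonneg _) hq hk
  unfold phi
  rw [map_mul, map_mul, map_mul, ← Q_conj (hn 2 (by norm_num)), ← Q_conj (hn 4 (by norm_num)),
    ← Q_conj (hn 6 (by norm_num)), ← Q_conj (hn 12 (by norm_num)), map_pow, map_pow, map_pow,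
    map_pow]

lemma ff_conj {z : ℂ} (hz : 0 < z.im) : ff (-(starRingEnd ℂ z)) = starRingEnd ℂ (ff z) := by
  rw [ff_q, ff_q, qq_conj, phi_conj (norm_qq_lt hz), map_mul]

lemma F_int {z : ℂ} (hz : 0 < z.im) :
    F z = 2 * Real.pi * ∫ t in Set.Ioi (0 : ℝ), ff (z + t * Complex.I) := by
  symm
  refine integral_line _ hz.le (ff_line_int _ (by rw [add_zero]; exact hz)) ?_
  have h1 : ContinuousAt (fun t : ℝ => F (z + t * Complex.I)) 0 := by
    refine ContinuousAt.comp (g := F) (f := fun t : ℝ => z + t * Complex.I) ?_ (by fun_prop)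
    simp only [Complex.ofReal_zero, zero_mul, add_zero]
    exact (F_diff hz).continuousAt
  have h2 := h1.tendsto
  simp only [Complex.ofReal_zero, zero_mul, add_zero] at h2
  exact h2.mono_left nhdsWithin_le_nhds

lemma conj_tpi : (starRingEnd ℂ) (2 * (Real.pi : ℂ)) = 2 * Real.pi := by
  rw [map_mul, Complex.conj_ofReal]
  congr 1
  exact Complex.conj_ofNat 2

lemma F_conj {z : ℂ} (hz : 0 < z.im) : F (-(starRingEnd ℂ z)) = starRingEnd ℂ (F z) := by
  have hz' : 0 < (-(starRingEnd ℂ z)).im := by simpa using hz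
  rw [F_int hz', F_int hz, map_mul, ← integral_conj, conj_tpi]
  congr 1
  refine setIntegral_congr_fun measurableSet_Ioi fun t ht => ?_
  have ht' : 0 < t := ht
  rw [← ff_conj (by rw [line_im]; linarith)]
  congr 1
  simp only [map_add, map_mul, Complex.conj_I, Complex.conj_ofReal]
  ring

lemma per_conj {a b c d : ℤ} (h : a * d - b * (24 * c) = 1) :
    per a (-b) (-c) d = starRingEnd ℂ (per a b c d) := by
  have hz : (0 : ℝ) < Complex.I.im := I_pos
  have hdet : a * d - (-b) * (24 * (-c)) = 1 := by linarith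
  refine per_eq hdet hz ?_
  have h1 := (G_gamma h hz).1
  have h3 := F_conj h1
  rw [per_spec h hz, map_add, ← F_conj hz] at h3
  have e1 : -(starRingEnd ℂ) Complex.I = Complex.I := by simp
  rw [e1] at h3
  rw [← h3]
  congr 1
  have e21 : (starRingEnd ℂ) (24 : ℂ) = 24 := Complex.conj_ofNat 24
  rw [map_div₀, map_add, map_add, map_mul, map_mul, map_mul, Complex.conj_I, e21]
  simp only [map_intCast]
  push_cast
  rw [← neg_div]
  congr 1 <;> ring

lemma hI_odd (a b c d : ℤ) (h : a * d - b * (24 * c) = 1) :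
    hI a (-b) (-c) d = - hI a b c d := by
  unfold hI
  rw [per_conj h, Complex.conj_im]

/-- the constant -/
noncomputable def kappa : ℝ := hI 5 1 1 5

lemma hI_kappa : hI (-5) 1 1 (-5) = -kappa := by
  have h1 := Hm.neg hI_hm (a := 5) (b := -1) (c := -1) (d := 5) (by norm_num)
  rw [neg_neg] at h1
  rw [h1, hI_odd 5 1 1 5 (by norm_num)]
  rfl

theorem hI_eq {a b c d : ℤ} (h : a * d - b * (24 * c) = 1) :
    hI a b c d = -(kappa * (Gp a (24 * c) : ℝ)) := by
  have h1 := hom_eq hI_hm (by unfold hI; rw [per_T]; simp) (by unfold hI; rw [per_0]; simp)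
    (by unfold hI; rw [per_2]; simp) (by unfold hI; rw [per_3]; simp)
    (by unfold hI; rw [per_4]; simp) (by unfold hI; rw [per_6]; simp)
    (by unfold hI; rw [per_12]; simp) hI_odd a b c d h
  rw [h1, hI_kappa, neg_mul]

end Pool.Agent.Run7.h843.P24.MS
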