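import Pool.Agent.Run7.h843.P24.Cmp
import Pool.Agent.Run7.h843.P24.Gen

/-!
# The closed cycle `Gp` of level `24` and the determination of the odd homomorphisms on `Γ₀(24)`

`Gp x M = 4 Fe 8 x M - 2 Fe 4 x M - 2 Fe 4 (2x) M + Fe 2 (2x) M` is a homomorphism on `Γ₀(24)` which
vanishes on the parabolic elements, and every odd homomorphism which vanishes on the parabolic
elements is a multiple of it. For `n = 3` modulo `8` its character sum is that of
`Fp x M = 4 Fe 8 x M - Fe 2 x M`.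
-/

set_option autoImplicit false

namespace Pool.Agent.Run7.h843.P24.Lk

open Finset
open Pool.Agent.Run7.h135.P24 (Fm cQ Fe Fp)

/-- the closed cycle -/
noncomputable def Gp (x M : ℤ) : ℤ := 4 * Fe 8 x M - 2 * Fe 4 x M - 2 * Fe 4 (2 * x) M + Fe 2 (2 * x) M

lemma L2 : Le 2 := Or.inl rfl
lemma L4 : Le 4 := Or.inr (Or.inl rfl)
lemma L8 : Le 8 := Or.inr (Or.inr rfl)

lemma cop {a b c d : ℤ} (h : a * d - b * (24 * c) = 1) : IsCoprime a 6 :=
  ⟨d, -(4 * b * c), by linarith⟩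

/-- two columns, `e = 8` -/
lemma Fe_mul {e : ℤ} (he : Le e) {a b c d a' b' c' d' : ℤ} (h : a * d - b * (3 * e * c) = 1)
    (h' : a' * d' - b' * (3 * e * c') = 1) (ha : IsCoprime a 6) (ha' : IsCoprime a' 6) :
    Fe e (a * a' + b * (3 * e * c')) (3 * e * c * a' + d * (3 * e * c')) =
      Fe e a (3 * e * c) + Fe e a' (3 * e * c') := by
  have h1 : Ok e (a * a' + b * (3 * e * c')) (3 * e * c * a' + d * (3 * e * c')) := by
    refine Ok_of_dvd he ⟨c * a' + d * c', by ring⟩ ?_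
    obtain ⟨k, hk⟩ : (6 : ℤ) ∣ 3 * e := by
      rcases he with rfl | rfl | rfl
      · exact ⟨1, by norm_num⟩
      · exact ⟨2, by norm_num⟩
      · exact ⟨4, by norm_num⟩
    obtain ⟨u, v, huv⟩ := ha.mul_left ha'
    exact ⟨u, v - u * b * k * c', by rw [hk]; linear_combination huv⟩
  exact Fe_act he h ⟨c, rfl⟩ (Ok_of_dvd he ⟨c', rfl⟩ ha') h1 (Ok_of_dvd he ⟨c, rfl⟩ ha)

/-- the second part of `Gp` in the other coordinates -/
lemma Gp_eq (x c : ℤ) : Gp x (24 * c) = 4 * Fe 8 x (3 * 8 * c) - 2 * Fe 4 x (3 * 4 * (2 * c)) -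
    2 * Fe 4 x (3 * 4 * c) + Fe 2 x (3 * 2 * (2 * c)) := by
  unfold Gp
  have e1 := Fe_scale 4 x (12 * c) (t := 2) (by norm_num)
  have e2 := Fe_scale 2 x (12 * c) (t := 2) (by norm_num)
  rw [show 2 * (12 * c) = 24 * c by ring] at e1 e2
  rw [e1, e2, show (3 : ℤ) * 8 * c = 24 * c by ring, show (3 : ℤ) * 4 * (2 * c) = 24 * c by ring,
    show (3 : ℤ) * 4 * c = 12 * c by ring, show (3 : ℤ) * 2 * (2 * c) = 12 * c by ring]

theorem Gp_mul {a b c d a' b' c' d' : ℤ} (h : a * d - b * (24 * c) = 1)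
    (h' : a' * d' - b' * (24 * c') = 1) :
    Gp (a * a' + b * (24 * c')) (24 * (c * a' + d * c')) = Gp a (24 * c) + Gp a' (24 * c') := by
  have ha := cop h
  have ha' := cop h'
  have e1 := Fe_mul L8 (a := a) (b := b) (c := c) (d := d) (a' := a') (b' := b') (c' := c')
    (d' := d') (by linarith) (by linarith) ha ha'
  have e2 := Fe_mul L4 (a := a) (b := b) (c := 2 * c) (d := d) (a' := a') (b' := b') (c' := 2 * c')
    (d' := d') (by linarith) (by linarith) ha ha'
  have e3 := Fe_mul L4 (a := a) (b := 2 * b) (c := c) (d := d) (a' := a') (b' := 2 * b') (c' := c')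
    (d' := d') (by linarith) (by linarith) ha ha'
  have e4 := Fe_mul L2 (a := a) (b := 2 * b) (c := 2 * c) (d := d) (a' := a') (b' := 2 * b')
    (c' := 2 * c') (d' := d') (by linarith) (by linarith) ha ha'
  rw [Gp_eq, Gp_eq, Gp_eq]
  rw [show a * a' + b * (3 * 8 * c') = a * a' + b * (24 * c') by ring,
    show 3 * 8 * c * a' + d * (3 * 8 * c') = 3 * 8 * (c * a' + d * c') by ring] at e1
  rw [show a * a' + b * (3 * 4 * (2 * c')) = a * a' + b * (24 * c') by ring,
    show 3 * 4 * (2 * c) * a' + d * (3 * 4 * (2 * c')) = 3 * 4 * (2 * (c * a' + d * c')) by ring] at e2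
  rw [show a * a' + 2 * b * (3 * 4 * c') = a * a' + b * (24 * c') by ring,
    show 3 * 4 * c * a' + d * (3 * 4 * c') = 3 * 4 * (c * a' + d * c') by ring] at e3
  rw [show a * a' + 2 * b * (3 * 2 * (2 * c')) = a * a' + b * (24 * c') by ring,
    show 3 * 2 * (2 * c) * a' + d * (3 * 2 * (2 * c')) = 3 * 2 * (2 * (c * a' + d * c')) by ring] at e4
  rw [e1, e2, e3, e4]
  ring

theorem Gp_neg (x M : ℤ) : Gp (-x) M = - Gp x M := by
  unfold Gp
  rw [show 2 * -x = -(2 * x) by ring, Fe_neg L8, Fe_neg L4, Fe_neg L4, Fe_neg L2]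
  ring

theorem Gp_neg_neg (x M : ℤ) : Gp (-x) (-M) = Gp x M := by
  unfold Gp
  rw [show 2 * -x = -(2 * x) by ring, Fe_neg_neg, Fe_neg_neg, Fe_neg_neg, Fe_neg_neg]

theorem Gp_inf (x : ℤ) : Gp x 0 = 0 := by
  unfold Gp
  rw [Fe_inf, Fe_inf, Fe_inf, Fe_inf]
  norm_num

/-! ### values -/

/-- the finite sum for `Gp` -/
def cg (x M : ℤ) (J : ℕ) : ℤ := 4 * cnt 8 x M J - 2 * cnt 4 x M J - 2 * cnt 4 (2 * x) M J +
  cnt 2 (2 * x) M J

theorem Gp_cnt {x M : ℤ} (hM : 0 < M) {J : ℕ} (hJ : M ^ 2 < 24 * (J + 1)) : Gp x M = cg x M J := by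
  unfold Gp cg
  have hJ0 : (0 : ℤ) ≤ J := by positivity
  rw [Fe_cnt L8 hM (J := J) (by linarith), Fe_cnt L4 hM (J := J) (by linarith),
    Fe_cnt L4 hM (J := J) (by linarith), Fe_cnt L2 hM (J := J) (by linarith)]

lemma Gp_1 : Gp 1 24 = 0 := by
  rw [Gp_cnt (by norm_num) (J := 24) (by norm_num)]
  decide +kernel

lemma Gp_5 : Gp 5 24 = -1 := by
  rw [Gp_cnt (by norm_num) (J := 24) (by norm_num)]
  decide +kernel

lemma Gp_7 : Gp 7 24 = -1 := by
  rw [Gp_cnt (by norm_num) (J := 24) (by norm_num)]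
  decide +kernel

lemma Gp_11 : Gp 11 24 = 0 := by
  rw [Gp_cnt (by norm_num) (J := 24) (by norm_num)]
  decide +kernel

lemma Gp_13 : Gp 13 24 = 0 := by
  rw [Gp_cnt (by norm_num) (J := 24) (by norm_num)]
  decide +kernel

lemma Gp6_11 : Gp 11 144 = 0 := by
  rw [Gp_cnt (by norm_num) (J := 864) (by norm_num)]
  decide +kernel

lemma Gp2_7 : Gp 7 48 = -1 := by
  rw [Gp_cnt (by norm_num) (J := 96) (by norm_num)]
  decide +kernel

lemma Gp2_17 : Gp 17 48 = -1 := by
  rw [Gp_cnt (by norm_num) (J := 96) (by norm_num)]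
  decide +kernel

lemma Gp2_19 : Gp 19 48 = 0 := by
  rw [Gp_cnt (by norm_num) (J := 96) (by norm_num)]
  decide +kernel

lemma Gp2_29 : Gp 29 48 = 0 := by
  rw [Gp_cnt (by norm_num) (J := 96) (by norm_num)]
  decide +kernel

lemma Gp2_11 : Gp 11 48 = 0 := by
  have h1 := Gp_mul (a := -5) (b := 1) (c := 1) (d := -5) (a' := 11) (b' := -3) (c' := 2)
    (d' := -13) (by norm_num) (by norm_num)
  norm_num at h1
  rw [Gp_neg, Gp_neg, Gp_5, Gp_7] at h1
  linarith

lemma Gp3_23 : Gp 23 72 = 0 := by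
  have h1 := Gp_mul (a := -7) (b := 2) (c := 1) (d := -7) (a' := 23) (b' := -8) (c' := 3)
    (d' := -25) (by norm_num) (by norm_num)
  norm_num at h1
  rw [Gp_neg, Gp_neg, Gp_7, Gp2_17] at h1
  linarith

lemma Gp3_11 : Gp 11 72 = 0 := by
  have h1 := Gp_mul (a := -7) (b := 1) (c := 2) (d := -7) (a' := 11) (b' := -2) (c' := 3)
    (d' := -13) (by norm_num) (by norm_num)
  norm_num at h1
  rw [Gp_neg, Gp_neg, Gp_5, Gp2_7] at h1
  linarith

/-- the homomorphism `Gp` -/
noncomputable def ph (a _b c _d : ℤ) : ℝ := (Gp a (24 * c) : ℝ)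

lemma ph_hm : Hm ph := by
  intro a b c d a' b' c' d' h h'
  unfold ph
  rw [Gp_mul h h']
  push_cast
  ring

/-- **the odd homomorphisms on `Γ₀(24)` which vanish on the parabolic elements are the multiples of
`Gp`** -/
theorem hom_eq {h : ℤ → ℤ → ℤ → ℤ → ℝ} (hm : Hm h) (hT : h 1 1 0 1 = 0) (h1 : h 1 0 1 1 = 0)
    (h2 : h (-11) 6 (-1) 13 = 0) (h3 : h (-23) 8 (-3) 25 = 0) (h4 : h (-11) 3 (-2) 13 = 0)
    (h6 : h (-11) 2 (-3) 13 = 0) (h12 : h (-11) 1 (-6) 13 = 0)
    (hodd : ∀ a b c d : ℤ, a * d - b * (24 * c) = 1 → h a (-b) (-c) d = - h a b c d)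
    (a b c d : ℤ) (hd : a * d - b * (24 * c) = 1) :
    h a b c d = h (-5) 1 1 (-5) * (Gp a (24 * c) : ℝ) := by
  have D : Dat (fun a b c d => h a b c d - h (-5) 1 1 (-5) * ph a b c d) := by
    refine ⟨?_, ?_, ?_, ?_, ?_, ?_, ?_, ?_, ?_, ?_⟩
    · intro a b c d a' b' c' d' e e'
      beta_reduce
      rw [hm a b c d a' b' c' d' e e', ph_hm a b c d a' b' c' d' e e']
      ring
    · rw [hT]; unfold ph; rw [mul_zero, Gp_inf]; simp
    · rw [h1]; unfold ph
      rw [mul_one, Gp_1]; simp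
    · rw [h2]; unfold ph
      have : Gp (-11) (24 * (-1)) = 0 := by rw [mul_neg_one, Gp_neg_neg, Gp_11]
      rw [this]; simp
    · rw [h3]; unfold ph
      have : Gp (-23) (24 * (-3)) = 0 := by
        rw [show (24 : ℤ) * (-3) = -72 by norm_num, Gp_neg_neg, Gp3_23]
      rw [this]; simp
    · rw [h4]; unfold ph
      have : Gp (-11) (24 * (-2)) = 0 := by
        rw [show (24 : ℤ) * (-2) = -48 by norm_num, Gp_neg_neg, Gp2_11]
      rw [this]; simp
    · rw [h6]; unfold ph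
      have : Gp (-11) (24 * (-3)) = 0 := by
        rw [show (24 : ℤ) * (-3) = -72 by norm_num, Gp_neg_neg, Gp3_11]
      rw [this]; simp
    · rw [h12]; unfold ph
      have : Gp (-11) (24 * (-6)) = 0 := by
        rw [show (24 : ℤ) * (-6) = -144 by norm_num, Gp_neg_neg, Gp6_11]
      rw [this]; simp
    · intro a b c d e
      rw [hodd a b c d e]
      unfold ph
      have e1 : Gp a (24 * -c) = - Gp a (24 * c) := by
        have := Gp_neg_neg (-a) (24 * c)
        rw [neg_neg, Gp_neg] at this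
        rw [← this]; congr 1; ring
      rw [e1]
      push_cast
      ring
    · unfold ph
      have : Gp (-5) (24 * 1) = 1 := by
        rw [mul_one, Gp_neg, Gp_5]; norm_num
      rw [this]; simp
  have := D.zero a b c d hd
  unfold ph at this
  linarith

/-- the value at a point of the class of the cusp `0` -/
theorem Gp_cusp0 {a b c d : ℤ} (hd : a * d - b * (24 * c) = 1) : Gp b d = Gp a (24 * c) := by
  have hcd : IsCoprime d 6 := ⟨a, -(4 * b * c), by linarith⟩
  have ha := cop hd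
  have key : ∀ {e : ℤ} (he : Le e) (β γ : ℤ), a * d - β * (3 * e * γ) = 1 →
      Fe e β d = Fe e a (3 * e * γ) := by
    intro e he β γ h
    have h1 := Fe_act he (x := 0) (M := 1) h ⟨γ, rfl⟩ (Ok_of_coprime he isCoprime_one_left) (by
      rw [mul_zero, mul_zero, zero_add, zero_add, mul_one, mul_one]
      exact Ok_of_coprime he hcd) (Ok_of_dvd he ⟨γ, rfl⟩ ha)
    rw [mul_zero, mul_zero, zero_add, zero_add, mul_one, mul_one, Fe_zero_one he, add_zero] at h1
    exact h1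
  rw [Gp_eq]
  unfold Gp
  rw [key L8 b c (by linarith), key L4 b (2 * c) (by linarith), key L4 (2 * b) c (by linarith),
    key L2 (2 * b) (2 * c) (by linarith)]

/-- periodicity at the points of the class of the cusp `0` -/
theorem Fe_add {e : ℤ} (he : Le e) {x M : ℤ} (hM : IsCoprime M 6) (m : ℤ) :
    Fe e (x + m * M) M = Fe e x M := by
  have h1 := Fe_act he (a := 1) (b := m) (c := 0) (d := 1) (x := x) (M := M) (by norm_num)
    (dvd_zero _) (Ok_of_coprime he hM)
    (by rw [one_mul, zero_mul, zero_add, one_mul]; exact Ok_of_coprime he hM) (Ok_inf he)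
  rw [Fe_inf, one_mul, zero_mul, zero_add, one_mul, zero_add] at h1
  exact h1

theorem Gp_add {x M : ℤ} (hM : IsCoprime M 6) (m : ℤ) : Gp (x + m * M) M = Gp x M := by
  unfold Gp
  rw [show 2 * (x + m * M) = 2 * x + (2 * m) * M by ring, Fe_add L8 hM, Fe_add L4 hM,
    Fe_add L4 hM, Fe_add L2 hM]

end Pool.Agent.Run7.h843.P24.Lk
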